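import Pool.Agent.H178.GC.Two3

/-!
# Levels `N₁ 2^a 3^b`: shifts and the data
-/

set_option autoImplicit false

namespace Pool.Agent.Q23.EF

open Finset Pool.Agent.Y18.GX Pool.Agent.H178.GC

section
variable {k : Type*} [Field k]

lemma zero_mul_pow {ℓ A n : ℕ} :
    ((ℓ ^ n : ℕ) : ZMod (ℓ ^ (A + n))) * ((ℓ ^ A : ℕ) : ZMod (ℓ ^ (A + n))) = 0 := by
  rw [← Nat.cast_mul, ← pow_add, add_comm n A, ZMod.natCast_self]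

lemma int_inv {r c c' : ℕ} (h : c * c' ≡ 1 [MOD r]) : ∃ y : ℤ, (c : ℤ) * c' = 1 + r * y := by
  obtain ⟨y, hy⟩ := Nat.modEq_iff_dvd.1 h.symm
  exact ⟨y, by push_cast at hy; linarith⟩

/-- the value at a shifted argument -/
lemma psi_shift {ℓ A n : ℕ} (ψ : MulChar (ZMod (ℓ ^ (A + n))) k) (hn : n ≤ A) {c c' : ℕ}
    (hcc : c * c' ≡ 1 [MOD ℓ ^ n]) (e : ℕ) :
    ψ ((c + ℓ ^ A * e : ℕ) : ZMod (ℓ ^ (A + n))) =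
      ψ (c : ZMod (ℓ ^ (A + n))) * ψ ((1 + ℓ ^ A : ℕ) : ZMod (ℓ ^ (A + n))) ^ (c' * e) := by
  have h := psi_one_add (K := A + n) (n := n) ψ (by omega) (c' * e)
  rw [Nat.add_sub_cancel] at h
  rw [← h, ← map_mul]
  congr 1
  obtain ⟨y, hy⟩ := int_inv hcc
  have h2 : (c : ZMod (ℓ ^ (A + n))) * c' = 1 + ((ℓ ^ n : ℕ) : ZMod (ℓ ^ (A + n))) * y := by
    have := congrArg (fun z : ℤ => (z : ZMod (ℓ ^ (A + n)))) hy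
    push_cast at this ⊢
    exact this
  have h0 := zero_mul_pow (ℓ := ℓ) (A := A) (n := n)
  push_cast at h0 h2 ⊢
  linear_combination (-(ℓ : ZMod (ℓ ^ (A + n))) ^ A * e) * h2 - ((e : ZMod (ℓ ^ (A + n))) * y) * h0

/-- the value at the reflected argument -/
lemma psi_neg_shift {ℓ B n : ℕ} (ψ : MulChar (ZMod (ℓ ^ (B + n))) k) (hn : n ≤ B) {c₁ c τ s : ℕ}
    (hcc : c₁ * τ ≡ 1 [MOD ℓ ^ n]) (hc : c₁ + c = 2 * s * ℓ ^ B) :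
    ψ (c₁ : ZMod (ℓ ^ (B + n))) =
      ψ (-1) * ψ (c : ZMod (ℓ ^ (B + n))) * ψ ((1 + ℓ ^ B : ℕ) : ZMod (ℓ ^ (B + n))) ^ (2 * s * τ) := by
  have h := psi_one_add (K := B + n) (n := n) ψ (by omega) (2 * s * τ)
  rw [Nat.add_sub_cancel] at h
  rw [← h, ← map_mul, ← map_mul]
  congr 1
  obtain ⟨y, hy⟩ := int_inv hcc
  have h2 : (c₁ : ZMod (ℓ ^ (B + n))) * τ = 1 + ((ℓ ^ n : ℕ) : ZMod (ℓ ^ (B + n))) * y := by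
    have := congrArg (fun z : ℤ => (z : ZMod (ℓ ^ (B + n)))) hy
    push_cast at this ⊢
    exact this
  have h0 := zero_mul_pow (ℓ := ℓ) (A := B) (n := n)
  have hW : ((ℓ ^ B : ℕ) : ZMod (ℓ ^ (B + n))) ^ 2 = 0 := by
    have h5 := M_sq (ℓ := ℓ) (K := B + n) (n := n) (by omega)
    rwa [Nat.add_sub_cancel] at h5
  have h1 : (c₁ : ZMod (ℓ ^ (B + n))) + c = 2 * s * ((ℓ ^ B : ℕ) : ZMod (ℓ ^ (B + n))) := by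
    rw [← Nat.cast_add, hc]
    push_cast
    rfl
  push_cast at h0 h1 h2 hW ⊢
  linear_combination (1 + 2 * (s : ZMod (ℓ ^ (B + n))) * τ * (ℓ : ZMod (ℓ ^ (B + n))) ^ B) * h1 -
    (2 * (s : ZMod (ℓ ^ (B + n))) * (ℓ : ZMod (ℓ ^ (B + n))) ^ B) * h2 -
    (2 * (s : ZMod (ℓ ^ (B + n))) * y) * h0 + (4 * (s : ZMod (ℓ ^ (B + n))) ^ 2 * τ) * hW

lemma xi_ne {y2 y3 : k} {N₁ n2 n3 : ℕ} (h2 : y2 ^ 2 ^ n2 = 1) (h2' : y2 ≠ 1) (h3 : y3 ^ 3 ^ n3 = 1)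
    (hN6 : N₁.Coprime 6) : (y2 * y3) ^ N₁ ≠ 1 := by
  intro h
  apply h2'
  have h1 : y2 ^ (N₁ * 3 ^ n3) = 1 := by
    have h4 : (y2 * y3) ^ (N₁ * 3 ^ n3) = 1 := by rw [pow_mul, h, one_pow]
    rw [mul_pow, mul_comm N₁ (3 ^ n3), pow_mul y3, h3, one_pow, mul_one, mul_comm (3 ^ n3) N₁] at h4
    exact h4
  have h5 : Nat.gcd (N₁ * 3 ^ n3) (2 ^ n2) = 1 := by
    refine Nat.Coprime.mul_left ?_ (Nat.Coprime.pow _ _ (by norm_num))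
    exact (Nat.Coprime.coprime_dvd_right (by norm_num : 2 ∣ 6) hN6).pow_right n2
  have h6 := Nat.dvd_gcd (orderOf_dvd_of_pow_eq_one h1) (orderOf_dvd_of_pow_eq_one h2)
  rw [h5] at h6
  exact orderOf_eq_one_iff.1 (Nat.dvd_one.1 h6)

lemma cop6_iff {c : ℕ} : c.Coprime 6 ↔ c.Coprime 2 ∧ c.Coprime 3 := by
  constructor
  · intro h
    exact ⟨Nat.Coprime.coprime_dvd_right (by norm_num) h, Nat.Coprime.coprime_dvd_right (by norm_num) h⟩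
  · rintro ⟨h1, h2⟩
    exact h1.mul_right h2

lemma exists_inv {c r : ℕ} (hr : r ≠ 0) (h : c.Coprime r) : ∃ c' : ℕ, c * c' ≡ 1 [MOD r] := by
  have : NeZero r := ⟨hr⟩
  refine ⟨((c : ZMod r)⁻¹).val, ?_⟩
  rw [← ZMod.natCast_eq_natCast_iff, Nat.cast_mul, ZMod.natCast_val, ZMod.cast_id', id_eq, Nat.cast_one]
  exact ZMod.coe_mul_inv_eq_one c h

lemma cop_of_inv {c c' r ℓ : ℕ} (hr : ℓ ∣ r) (h : c * c' ≡ 1 [MOD r]) : c'.Coprime ℓ := by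
  have h1 : (c * c').Coprime ℓ := by
    have := (h.of_dvd hr).gcd_eq
    rw [Nat.Coprime, this]
    simp
  exact Nat.Coprime.coprime_mul_left h1

end

/-- the data: a character modulo `N = N₁ 2^(A+n2) 3^(B+n3)` with values in a field -/
structure Hyp (p g n2 n3 u N₁ A B m N : ℕ) {k : Type*} [Field k] (χ : MulChar (ZMod N) k)
    (ψ₁ : MulChar (ZMod N₁) k) (ψ₂ : MulChar (ZMod (2 ^ (A + n2))) k)
    (ψ₃ : MulChar (ZMod (3 ^ (B + n3))) k) : Prop where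
  hp5 : 5 ≤ p
  hN : N = N₁ * (2 ^ (A + n2) * 3 ^ (B + n3))
  hq : p ^ g - 1 = 2 ^ n2 * 3 ^ n3 * u
  hu : u.Coprime 6
  h8 : 3 ≤ n2
  h3 : 1 ≤ n3
  hA : n2 ≤ A
  hB : n3 ≤ B
  hχ : ∀ x : ℕ, χ (x : ZMod N) = ψ₁ (x : ZMod N₁) *
    (ψ₂ (x : ZMod (2 ^ (A + n2))) * ψ₃ (x : ZMod (3 ^ (B + n3))))
  hψ₁ : ∀ x, ψ₁ x ^ p ^ g = ψ₁ x
  p2 : ψ₂ ((1 + 2 ^ (A + n2 - 1) : ℕ) : ZMod (2 ^ (A + n2))) ≠ 1
  p3 : ψ₃ ((1 + 3 ^ (B + n3 - 1) : ℕ) : ZMod (3 ^ (B + n3))) ≠ 1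
  hN6 : N₁.Coprime 6
  hpN : ¬ p ∣ N₁
  hpar : χ (-1) = (-1) ^ m

section
variable {k : Type*} [Field k] {p g n2 n3 u N₁ A B m N : ℕ} {χ : MulChar (ZMod N) k}
    {ψ₁ : MulChar (ZMod N₁) k} {ψ₂ : MulChar (ZMod (2 ^ (A + n2))) k}
    {ψ₃ : MulChar (ZMod (3 ^ (B + n3))) k} (D : Hyp p g n2 n3 u N₁ A B m N χ ψ₁ ψ₂ ψ₃)

include D

lemma Hyp.q1 : 1 ≤ p ^ g := Nat.one_le_pow _ _ (by have := D.hp5; omega)

lemma Hyp.qeq : p ^ g = 2 ^ n2 * 3 ^ n3 * u + 1 := by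
  have := D.q1
  have := D.hq
  omega

lemma Hyp.A2 : Adm 2 (p ^ g) := by
  refine Or.inr ⟨rfl, ?_⟩
  have h1 : 2 ^ 2 ∣ 2 ^ n2 := pow_dvd_pow _ (by have := D.h8; omega)
  obtain ⟨w, hw⟩ := h1
  rw [D.qeq, hw, show 2 ^ 2 * w * 3 ^ n3 * u + 1 = 4 * (w * 3 ^ n3 * u) + 1 by ring]
  omega

lemma Hyp.A3 : Adm 3 (p ^ g) := by
  refine Or.inl ⟨rfl, ?_⟩
  have h1 : 3 ^ 1 ∣ 3 ^ n3 := pow_dvd_pow _ D.h3
  obtain ⟨w, hw⟩ := h1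
  rw [D.qeq, hw, show 2 ^ n2 * (3 ^ 1 * w) * u + 1 = 3 * (2 ^ n2 * w * u) + 1 by ring]
  omega

lemma Hyp.even : Even (p ^ g - 1) := by
  have h1 : 2 ^ 1 ∣ 2 ^ n2 := pow_dvd_pow _ (by have := D.h8; omega)
  rw [D.hq, even_iff_two_dvd]
  exact ((h1.mul_right _).mul_right _)

lemma Hyp.N0 : N₁ ≠ 0 := by
  intro h
  apply D.hpN
  rw [h]
  exact dvd_zero _

lemma Hyp.ML : N = 2 ^ A * 3 ^ B * (N₁ * (2 ^ n2 * 3 ^ n3)) := by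
  rw [D.hN, pow_add, pow_add]
  ring

/-- the value of `ψ₂` at `1 + 2^A` -/
lemma Hyp.x2_pow : ψ₂ ((1 + 2 ^ A : ℕ) : ZMod (2 ^ (A + n2))) ^ 2 ^ n2 = 1 := by
  have h := psi_M_pow (K := A + n2) (n := n2) ψ₂ (by have := D.hA; omega)
  rwa [Nat.add_sub_cancel] at h

lemma Hyp.x3_pow : ψ₃ ((1 + 3 ^ B : ℕ) : ZMod (3 ^ (B + n3))) ^ 3 ^ n3 = 1 := by
  have h := psi_M_pow (K := B + n3) (n := n3) ψ₃ (by have := D.hB; omega)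
  rwa [Nat.add_sub_cancel] at h

lemma Hyp.x2_ne {e : ℕ} (he : e.Coprime 2) : ψ₂ ((1 + 2 ^ A : ℕ) : ZMod (2 ^ (A + n2))) ^ e ≠ 1 := by
  intro h
  have h1 : ψ₂ ((1 + 2 ^ A : ℕ) : ZMod (2 ^ (A + n2))) = 1 := by
    have h6 := Nat.dvd_gcd (orderOf_dvd_of_pow_eq_one h) (orderOf_dvd_of_pow_eq_one D.x2_pow)
    rw [Nat.Coprime.pow_right n2 he] at h6
    exact orderOf_eq_one_iff.1 (Nat.dvd_one.1 h6)
  apply D.p2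
  have h2 := psi_M_pow' (K := A + n2) (n := n2) ψ₂ (by have := D.hA; omega) (by have := D.h8; omega)
  rw [Nat.add_sub_cancel, h1, one_pow] at h2
  exact h2.symm

lemma Hyp.x3_ne {e : ℕ} (he : e.Coprime 3) : ψ₃ ((1 + 3 ^ B : ℕ) : ZMod (3 ^ (B + n3))) ^ e ≠ 1 := by
  intro h
  have h1 : ψ₃ ((1 + 3 ^ B : ℕ) : ZMod (3 ^ (B + n3))) = 1 := by
    have h6 := Nat.dvd_gcd (orderOf_dvd_of_pow_eq_one h) (orderOf_dvd_of_pow_eq_one D.x3_pow)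
    rw [Nat.Coprime.pow_right n3 he] at h6
    exact orderOf_eq_one_iff.1 (Nat.dvd_one.1 h6)
  apply D.p3
  have h2 := psi_M_pow' (K := B + n3) (n := n3) ψ₃ (by have := D.hB; omega) D.h3
  rw [Nat.add_sub_cancel, h1, one_pow] at h2
  exact h2.symm

/-- the values in the class of `c` modulo `2^A 3^B` -/
lemma Hyp.shift {c σ τ : ℕ} (hσ : c * σ ≡ 1 [MOD 2 ^ n2]) (hτ : c * τ ≡ 1 [MOD 3 ^ n3]) (t : ℕ) :
    χ ((c + 2 ^ A * 3 ^ B * t : ℕ) : ZMod N) =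
      (ψ₂ (c : ZMod (2 ^ (A + n2))) * ψ₃ (c : ZMod (3 ^ (B + n3)))) *
      (ψ₁ ((c + 2 ^ A * 3 ^ B * t : ℕ) : ZMod N₁) *
        (ψ₂ ((1 + 2 ^ A : ℕ) : ZMod (2 ^ (A + n2))) ^ (σ * 3 ^ B) *
          ψ₃ ((1 + 3 ^ B : ℕ) : ZMod (3 ^ (B + n3))) ^ (τ * 2 ^ A)) ^ t) := by
  rw [D.hχ]
  have e2 : c + 2 ^ A * 3 ^ B * t = c + 2 ^ A * (3 ^ B * t) := by ring
  have e3 : c + 2 ^ A * 3 ^ B * t = c + 3 ^ B * (2 ^ A * t) := by ring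
  have h2 : ψ₂ ((c + 2 ^ A * 3 ^ B * t : ℕ) : ZMod (2 ^ (A + n2))) = _ :=
    (congrArg (fun x : ℕ => ψ₂ (x : ZMod (2 ^ (A + n2)))) e2).trans (psi_shift ψ₂ D.hA hσ (3 ^ B * t))
  have h3 : ψ₃ ((c + 2 ^ A * 3 ^ B * t : ℕ) : ZMod (3 ^ (B + n3))) = _ :=
    (congrArg (fun x : ℕ => ψ₃ (x : ZMod (3 ^ (B + n3)))) e3).trans (psi_shift ψ₃ D.hB hτ (2 ^ A * t))
  rw [h2, h3, mul_pow, ← pow_mul, ← pow_mul, mul_assoc σ, mul_assoc τ]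
  ring

end

end Pool.Agent.Q23.EF
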