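import Pool.Agent.Q23.EF.Unit

/-!
# Levels `N₁ 2^a 3^b`: the three cases
-/

set_option autoImplicit false

namespace Pool.Agent.Q23.EF

open Finset Pool.Agent.Y18.GX Pool.Agent.H178.GC

/-- the exponents of a larger power of `p` -/
lemma bigger {p g R : ℕ} (hp1 : 1 ≤ p) :
    p ^ (g * R) - 1 = (p ^ g - 1) * ∑ i ∈ range R, (p ^ g) ^ i := by
  rw [pow_mul]
  exact pow_sub_one_geom _ _ (Nat.one_le_pow _ _ hp1)

lemma bigger_cop {q ℓ R : ℕ} (hq : q ≡ 1 [MOD ℓ]) (hR : R.Coprime ℓ) :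
    (∑ i ∈ range R, q ^ i).Coprime ℓ := by
  rw [Nat.Coprime, (geom_mod (n := R) hq).gcd_eq]
  exact hR

/-- the exponent of the units modulo `N₁ ℓ^a` -/
lemma bigger_exp {p g N₁ ℓ a : ℕ} (hp1 : 1 ≤ p) (hA : Adm ℓ (p ^ g)) (heven : 2 ∣ p ^ g - 1) (hN₁ : N₁.Coprime ℓ)
    (hexp : ∀ x : ℕ, x.Coprime N₁ → x ^ (p ^ g - 1) ≡ 1 [MOD N₁]) (x : ℕ) (hx : x.Coprime (N₁ * ℓ ^ a)) :
    x ^ (p ^ (g * ℓ ^ a) - 1) ≡ 1 [MOD N₁ * ℓ ^ a] := by
  have hℓ := hA.prime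
  obtain ⟨c, hc⟩ := adm_div hA a
  rw [← pow_mul] at hc
  have hx1 : x.Coprime N₁ := Nat.Coprime.coprime_mul_right_right hx
  have hx2 : x.Coprime (ℓ ^ a) := Nat.Coprime.coprime_mul_left_right hx
  refine (Nat.modEq_and_modEq_iff_modEq_mul (hN₁.pow_right a)).1 ⟨?_, ?_⟩
  · rw [hc, mul_assoc, pow_mul]
    have h := (hexp x hx1).pow (ℓ ^ a * c)
    rwa [one_pow] at h
  · have h1 : x ^ (ℓ ^ a).totient ≡ 1 [MOD ℓ ^ a] := Nat.ModEq.pow_totient hx2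
    have h2 : (ℓ ^ a).totient ∣ p ^ (g * ℓ ^ a) - 1 := by
      rcases Nat.eq_zero_or_pos a with h0 | h0
      · subst h0
        simp
      · rw [Nat.totient_prime_pow hℓ h0, hc]
        have h3 : ℓ - 1 ∣ p ^ g - 1 := by
          rcases hA with ⟨h4, -⟩ | ⟨h4, -⟩
          · rw [h4]
            exact heven
          · rw [h4]
            exact one_dvd _
        have h4 : ℓ ^ (a - 1) ∣ ℓ ^ a := pow_dvd_pow _ (by omega)
        have h5 := Nat.mul_dvd_mul h3 h4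
        rw [mul_comm]
        exact h5.mul_right c
    obtain ⟨w, hw⟩ := h2
    have h3 := h1.pow w
    rw [one_pow, ← pow_mul, ← hw] at h3
    exact h3

theorem main {p : ℕ} (hp : p.Prime) (h5 : 5 ≤ p) {N₁ g r s u : ℕ} (hN₁ : N₁.Coprime 6) (hpN : ¬ p ∣ N₁)
    (hg : Even g) (hexp : ∀ x : ℕ, x.Coprime N₁ → x ^ (p ^ g - 1) ≡ 1 [MOD N₁])
    (hq : p ^ g - 1 = 2 ^ r * 3 ^ s * u) (hu : u.Coprime 6) {a b m : ℕ} (hm1 : 1 ≤ m) (hmp : m ≤ p - 1)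
    (hsize : 4 * (m * N₁) ^ 3 * (2 ^ r * 3 ^ s) ^ 4 ≤ 2 ^ a * 3 ^ b)
    (ψ : DirichletCharacter ℂ (N₁ * (2 ^ a * 3 ^ b))) (hc : 2 ^ a * 3 ^ b ∣ ψ.conductor)
    (hpar : ψ (-1) = (-1) ^ m) : Pool.Agent.Y18.GX.IsUnitAt p (valSum p m ψ) := by
  have hN0 : N₁ ≠ 0 := by
    rintro rfl
    exact hpN (dvd_zero _)
  have hp1 : 1 ≤ p := hp.pos
  have hq8 := q_mod8 hp h5 hg
  have hq3 := q_mod3 hp h5 hg
  obtain ⟨hN2, hN3⟩ := cop6_iff.1 hN₁
  obtain ⟨hu2, hu3⟩ := cop6_iff.1 hu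
  have hpos : 0 < m * N₁ := Nat.mul_pos (by omega) (Nat.pos_of_ne_zero hN0)
  have hp2 : ¬ p ∣ 2 := fun h => by
    have := (Nat.prime_dvd_prime_iff_eq hp Nat.prime_two).1 h
    omega
  have hp3 : ¬ p ∣ 3 := fun h => by
    have := (Nat.prime_dvd_prime_iff_eq hp Nat.prime_three).1 h
    omega
  have hr : 3 ≤ r := by
    have h1 : 2 ^ 3 ∣ 2 ^ r * (3 ^ s * u) := by
      rw [← mul_assoc, ← hq]
      omega
    have h2 : 2 ^ 3 ∣ 2 ^ r := Nat.Coprime.dvd_of_dvd_mul_right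
      (Nat.Coprime.pow_left 3 ((Nat.Coprime.mul_left (Nat.Coprime.pow_left s (by norm_num)) hu2).symm)) h1
    exact (Nat.pow_dvd_pow_iff_le_right (by norm_num)).1 h2
  have hs : 1 ≤ s := by
    have h1 : 3 ^ 1 ∣ 3 ^ s * (2 ^ r * u) := by
      have : 3 ^ s * (2 ^ r * u) = p ^ g - 1 := by rw [hq]; ring
      rw [this]
      omega
    have h2 : 3 ^ 1 ∣ 3 ^ s := Nat.Coprime.dvd_of_dvd_mul_right
      (Nat.Coprime.pow_left 1 ((Nat.Coprime.mul_left (Nat.Coprime.pow_left r (by norm_num)) hu3).symm)) h1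
    exact (Nat.pow_dvd_pow_iff_le_right (by norm_num)).1 h2
  have hA2 : Adm 2 (p ^ g) := Or.inr ⟨rfl, by omega⟩
  have hA3 : Adm 3 (p ^ g) := Or.inl ⟨rfl, hq3⟩
  have heven : 2 ∣ p ^ g - 1 := by omega
  have hP : 0 < 2 ^ r := by positivity
  have hT : 0 < 3 ^ s := by positivity
  have hx : 0 < 2 ^ a := by positivity
  have hy : 0 < 3 ^ b := by positivity
  have hP8 : 8 ≤ 2 ^ r := by
    calc 8 = 2 ^ 3 := by norm_num
      _ ≤ 2 ^ r := Nat.pow_le_pow_right (by norm_num) hr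
  by_cases hX : 2 ^ a ≤ 2 * 2 ^ r * (N₁ * (2 ^ r * 3 ^ s) * m)
  · -- the power of `3` is large
    have hsz : m * (N₁ * 2 ^ a) * 3 ^ (2 * s) ≤ 3 ^ b := by
      by_contra hcon
      push Not at hcon
      have e1 : 2 ^ a * 3 ^ b < 2 ^ a * (m * (N₁ * 2 ^ a) * 3 ^ (2 * s)) := Nat.mul_lt_mul_of_pos_left hcon hx
      have e2 : 2 ^ a * (m * (N₁ * 2 ^ a) * 3 ^ (2 * s)) = (m * N₁ * 3 ^ (2 * s)) * (2 ^ a) ^ 2 := by ring
      have e3 : (m * N₁ * 3 ^ (2 * s)) * (2 ^ a) ^ 2 ≤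
          (m * N₁ * 3 ^ (2 * s)) * (2 * 2 ^ r * (N₁ * (2 ^ r * 3 ^ s) * m)) ^ 2 :=
        Nat.mul_le_mul_left _ (Nat.pow_le_pow_left hX 2)
      have e4 : (m * N₁ * 3 ^ (2 * s)) * (2 * 2 ^ r * (N₁ * (2 ^ r * 3 ^ s) * m)) ^ 2 =
          4 * (m * N₁) ^ 3 * (2 ^ r * 3 ^ s) ^ 4 := by ring
      omega
    have hR : (2 ^ a).Coprime 3 := Nat.Coprime.pow_left _ (by norm_num)
    refine one_prime (N₁ := N₁ * 2 ^ a) (g := g * 2 ^ a) (n := s)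
      (u := 2 ^ r * u * ∑ i ∈ range (2 ^ a), (p ^ g) ^ i) hp h5 (Or.inr rfl) (hN3.mul_left hR) ?_
      (hg.mul_right _) (bigger_exp hp1 hA2 heven hN2 hexp) ?_ ?_ (by ring) hm1 hmp hsz ψ
      ((dvd_mul_left _ _).trans hc) hpar
    · intro h
      rcases (hp.dvd_mul).1 h with h | h
      · exact hpN h
      · exact hp2 (hp.dvd_of_dvd_pow h)
    · rw [bigger hp1, hq]
      ring
    · refine Nat.Coprime.mul_left (Nat.Coprime.mul_left (Nat.Coprime.pow_left _ (by norm_num)) hu3) ?_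
      exact bigger_cop hq3 hR
  · push Not at hX
    by_cases hY : 3 ^ b < 4 * N₁ * 3 ^ (2 * s)
    · -- the power of `2` is large
      have hsz : m * (N₁ * 3 ^ b) * 2 ^ (2 * r) ≤ 2 ^ a := by
        by_contra hcon
        push Not at hcon
        have e1 : 3 ^ b * 2 ^ a < 3 ^ b * (m * (N₁ * 3 ^ b) * 2 ^ (2 * r)) := Nat.mul_lt_mul_of_pos_left hcon hy
        have e2 : 3 ^ b * (m * (N₁ * 3 ^ b) * 2 ^ (2 * r)) = (m * N₁ * 2 ^ (2 * r)) * (3 ^ b) ^ 2 := by ring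
        have e3 : (m * N₁ * 2 ^ (2 * r)) * (3 ^ b) ^ 2 ≤
            (m * N₁ * 2 ^ (2 * r)) * (4 * N₁ * 3 ^ (2 * s)) ^ 2 :=
          Nat.mul_le_mul_left _ (Nat.pow_le_pow_left hY.le 2)
        have e4 : (m * N₁ * 2 ^ (2 * r)) * (4 * N₁ * 3 ^ (2 * s)) ^ 2 =
            4 * ((m * N₁ ^ 3) * (2 ^ r) ^ 2 * (3 ^ s) ^ 4 * 4) := by ring
        have e5 : 4 * (m * N₁) ^ 3 * (2 ^ r * 3 ^ s) ^ 4 =
            4 * ((m * N₁ ^ 3) * (2 ^ r) ^ 2 * (3 ^ s) ^ 4 * (m ^ 2 * (2 ^ r) ^ 2)) := by ring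
        have e6 : 4 ≤ m ^ 2 * (2 ^ r) ^ 2 := by
          have h1 : 1 ≤ m ^ 2 := Nat.one_le_pow _ _ (by omega)
          have h2 : 8 ^ 2 ≤ (2 ^ r) ^ 2 := Nat.pow_le_pow_left hP8 2
          calc 4 ≤ 1 * 8 ^ 2 := by norm_num
            _ ≤ m ^ 2 * (2 ^ r) ^ 2 := Nat.mul_le_mul h1 h2
        have e7 := Nat.mul_le_mul_left ((m * N₁ ^ 3) * (2 ^ r) ^ 2 * (3 ^ s) ^ 4) e6
        have e8 : 2 ^ a * 3 ^ b = 3 ^ b * 2 ^ a := mul_comm _ _
        omega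
      have hR : (3 ^ b).Coprime 2 := Nat.Coprime.pow_left _ (by norm_num)
      have hq2 : p ^ g ≡ 1 [MOD 2] := by
        rw [Nat.ModEq]
        omega
      refine one_prime (N₁ := N₁ * 3 ^ b) (g := g * 3 ^ b) (n := r)
        (u := 3 ^ s * u * ∑ i ∈ range (3 ^ b), (p ^ g) ^ i) hp h5 (Or.inl rfl) (hN2.mul_left hR) ?_
        (hg.mul_right _) (bigger_exp hp1 hA3 heven hN3 hexp) ?_ ?_ (by ring) hm1 hmp hsz ψ
        ((dvd_mul_right _ _).trans hc) hpar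
      · intro h
        rcases (hp.dvd_mul).1 h with h | h
        · exact hpN h
        · exact hp3 (hp.dvd_of_dvd_pow h)
      · rw [bigger hp1, hq]
        ring
      · refine Nat.Coprime.mul_left (Nat.Coprime.mul_left (Nat.Coprime.pow_left _ (by norm_num)) hu2) ?_
        exact bigger_cop hq2 hR
    · -- both are large
      push Not at hY
      have ha : 2 * r < a := by
        have h1 : 2 ^ (2 * r) < 2 ^ a := by
          refine lt_of_le_of_lt ?_ hX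
          have h2 : 2 * 2 ^ r * (N₁ * (2 ^ r * 3 ^ s) * m) = 2 ^ (2 * r) * (2 * (m * N₁) * 3 ^ s) := by ring
          rw [h2]
          exact Nat.le_mul_of_pos_right _ (by positivity)
        exact (Nat.pow_lt_pow_iff_right (by norm_num)).1 h1
      have hb : 2 * s ≤ b := by
        have h1 : 3 ^ (2 * s) ≤ 3 ^ b := le_trans (Nat.le_mul_of_pos_left _ (by positivity)) hY
        exact (Nat.pow_le_pow_iff_right (by norm_num)).1 h1
      obtain ⟨A, rfl⟩ : ∃ A, a = A + r := ⟨a - r, by omega⟩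
      obtain ⟨B, rfl⟩ : ∃ B, b = B + s := ⟨b - s, by omega⟩
      have f1 : 2 * (N₁ * (2 ^ r * 3 ^ s) * m) < 2 ^ A := by
        have h1 : 2 ^ r * (2 * (N₁ * (2 ^ r * 3 ^ s) * m)) < 2 ^ r * 2 ^ A := by
          have e1 : 2 ^ r * (2 * (N₁ * (2 ^ r * 3 ^ s) * m)) = 2 * 2 ^ r * (N₁ * (2 ^ r * 3 ^ s) * m) := by ring
          have e2 : 2 ^ r * 2 ^ A = 2 ^ (A + r) := by rw [pow_add]; ring
          rw [e1, e2]
          exact hX
        exact Nat.lt_of_mul_lt_mul_left h1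
      have f2 : 4 * N₁ ≤ 3 ^ B := by
        have h1 : 3 ^ s * (4 * N₁) ≤ 3 ^ s * 3 ^ B := by
          have e2 : 3 ^ s * 3 ^ B = 3 ^ (B + s) := by rw [pow_add]; ring
          rw [e2]
          refine le_trans ?_ hY
          have e3 : 4 * N₁ * 3 ^ (2 * s) = 3 ^ s * (4 * N₁) * 3 ^ s := by ring
          rw [e3]
          exact Nat.le_mul_of_pos_right _ hT
        exact Nat.le_of_mul_le_mul_left h1 hT
      refine two_primes hp h5 hN₁ hpN hg hexp hq hu hr hs (by omega) (by omega) rfl hm1 hmp ?_ ψ hc hpar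
      have g1 := Nat.mul_le_mul_left (2 ^ A) f2
      have g2 := Nat.mul_lt_mul_of_pos_right f1 (show 0 < 3 ^ B by positivity)
      have g3 : 2 ^ A * (4 * N₁) = 4 * (N₁ * 2 ^ A) := by ring
      have g4 : 2 * (N₁ * (2 ^ r * 3 ^ s) * m) * 3 ^ B = 2 * (N₁ * (2 ^ r * 3 ^ s) * m * 3 ^ B) := by ring
      omega

end Pool.Agent.Q23.EF
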