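import Pool.Agent.Q23.EF.Basic

/-!
# Levels `N₁ 2^a 3^b`: the relation between two classes
-/

set_option autoImplicit false

namespace Pool.Agent.Q23.EF

open Finset Pool.Agent.Y18.GX Pool.Agent.H178.GC

section
variable {k : Type*} [Field k] {p g n2 n3 u N₁ A B m N : ℕ} {χ : MulChar (ZMod N) k}
    {ψ₁ : MulChar (ZMod N₁) k} {ψ₂ : MulChar (ZMod (2 ^ (A + n2))) k}
    {ψ₃ : MulChar (ZMod (3 ^ (B + n3))) k} [Fact p.Prime] [CharP k p]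
    (D : Hyp p g n2 n3 u N₁ A B m N χ ψ₁ ψ₂ ψ₃)

include D

lemma Hyp.nat_ne {r : ℕ} (hr : ¬ p ∣ r) : ((r : ℕ) : k) ≠ 0 := fun h => hr ((CharP.cast_eq_zero_iff k p r).1 h)

omit [CharP k p] in
lemma Hyp.pnot {r : ℕ} (hr : r.Prime) (hr3 : r ≤ 3) : ¬ p ∣ r := by
  intro h
  have h1 := (Nat.prime_dvd_prime_iff_eq (Fact.out : p.Prime) hr).1 h
  have := D.hp5
  omega

omit [CharP k p] in
lemma Hyp.pN : ¬ p ∣ N := by
  have hp := (Fact.out : p.Prime)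
  rw [D.hN]
  intro h
  rcases (hp.dvd_mul).1 h with h | h
  · exact D.hpN h
  · rcases (hp.dvd_mul).1 h with h | h
    · exact D.pnot Nat.prime_two (by norm_num) (hp.dvd_of_dvd_pow h)
    · exact D.pnot Nat.prime_three (by norm_num) (hp.dvd_of_dvd_pow h)

/-- the sum over the classes where `ψ₂ ψ₃ / ψ₂ ψ₃ (c)` is a root of unity of order dividing `q - 1` -/
theorem Hyp.four_class
    (hS : ∑ x ∈ range N, χ (x : ZMod N) * Polynomial.aeval ((x : k) / (N : ℕ)) (FF m) = 0)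
    {c : ℕ} (hc : c.Coprime 6) :
    ∑ x ∈ range N,
      (if ((((2 ^ A : ℕ) : ℤ) ∣ (x : ℤ) - c ∨ ((2 ^ A : ℕ) : ℤ) ∣ (x : ℤ) + c) ∧
        (((3 ^ B : ℕ) : ℤ) ∣ (x : ℤ) - c ∨ ((3 ^ B : ℕ) : ℤ) ∣ (x : ℤ) + c))
      then χ (x : ZMod N) * Polynomial.aeval ((x : k) / (N : ℕ)) (FF m) else 0) = 0 := by
  have hp := (Fact.out : p.Prime)
  have hq1 := D.q1
  have hA2 := D.A2
  have hA3 := D.A3
  have heven := D.even
  have h8 := D.h8
  have h3' := D.h3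
  have hA' := D.hA
  have hB' := D.hB
  have h2k : (2 : k) ≠ 0 := by
    have := D.nat_ne (D.pnot Nat.prime_two (by norm_num))
    exact_mod_cast this
  have h3k : (3 : k) ≠ 0 := by
    have := D.nat_ne (D.pnot Nat.prime_three (by norm_num))
    exact_mod_cast this
  -- Frobenius
  have hSj : ∀ j, ∑ x ∈ range N, ψ₁ (x : ZMod N₁) * (ψ₂ (x : ZMod (2 ^ (A + n2))) * ψ₃ (x : ZMod (3 ^ (B + n3)))) ^ (p ^ g) ^ j *
      Polynomial.aeval ((x : k) / (N : ℕ)) (FF m) = 0 := by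
    intro j
    have h1 := congrArg (iterateFrobenius k p (g * j)) hS
    rw [map_zero, map_sum] at h1
    rw [← h1]
    refine Finset.sum_congr rfl fun x _ => ?_
    rw [iterateFrobenius_def, mul_pow (χ (x : ZMod N)), frob_fix, pow_mul, D.hχ, mul_pow (ψ₁ (x : ZMod N₁))]
    congr 2
    have h2 : ∀ j, ψ₁ (x : ZMod N₁) ^ (p ^ g) ^ j = ψ₁ (x : ZMod N₁) := by
      intro j
      induction j with
      | zero => simp
      | succ j ih => rw [pow_succ, pow_mul, ih, D.hψ₁]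
    rw [h2]
  -- the inverse of `c`
  obtain ⟨hc2, hc3⟩ := cop6_iff.1 hc
  have hcN : c.Coprime (2 ^ (A + n2) * 3 ^ (B + n3)) := (hc2.pow_right (A + n2)).mul_right (hc3.pow_right (B + n3))
  obtain ⟨c', hcc⟩ := exists_inv (r := 2 ^ (A + n2) * 3 ^ (B + n3)) (by positivity) hcN
  have hcc2 : ((c * c' : ℕ) : ZMod (2 ^ (A + n2))) = 1 := by
    have := (ZMod.natCast_eq_natCast_iff (c * c') 1 (2 ^ (A + n2))).2 (hcc.of_dvd (dvd_mul_right _ _))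
    rw [this, Nat.cast_one]
  have hcc3 : ((c * c' : ℕ) : ZMod (3 ^ (B + n3))) = 1 := by
    have := (ZMod.natCast_eq_natCast_iff (c * c') 1 (3 ^ (B + n3))).2 (hcc.of_dvd (dvd_mul_left _ _))
    rw [this, Nat.cast_one]
  have hc'2 : c'.Coprime 2 := cop_of_inv ((dvd_pow_self 2 (by omega)).trans (dvd_mul_right _ _)) hcc
  have hc'3 : c'.Coprime 3 := cop_of_inv ((dvd_pow_self 3 (by omega)).trans (dvd_mul_left _ _)) hcc
  have hu2 : ∀ x : ℕ, x.Coprime 2 → ψ₂ (x : ZMod (2 ^ (A + n2))) ≠ 0 := fun x hx =>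
    (((ZMod.isUnit_iff_coprime x (2 ^ (A + n2))).2 (hx.pow_right (A + n2))).map ψ₂).ne_zero
  have hu3 : ∀ x : ℕ, x.Coprime 3 → ψ₃ (x : ZMod (3 ^ (B + n3))) ≠ 0 := fun x hx =>
    (((ZMod.isUnit_iff_coprime x (3 ^ (B + n3))).2 (hx.pow_right (B + n3))).map ψ₃).ne_zero
  set γ := ψ₂ (c : ZMod (2 ^ (A + n2))) * ψ₃ (c : ZMod (3 ^ (B + n3))) with hγ
  have hγ0 : γ ≠ 0 := mul_ne_zero (hu2 c hc2) (hu3 c hc3)
  have hγ' : ψ₂ (c' : ZMod (2 ^ (A + n2))) * ψ₃ (c' : ZMod (3 ^ (B + n3))) = γ⁻¹ := by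
    apply eq_inv_of_mul_eq_one_left
    have e2 : ψ₂ (c : ZMod (2 ^ (A + n2))) * ψ₂ (c' : ZMod (2 ^ (A + n2))) = 1 := by
      rw [← map_mul, ← Nat.cast_mul, hcc2, map_one]
    have e3 : ψ₃ (c : ZMod (3 ^ (B + n3))) * ψ₃ (c' : ZMod (3 ^ (B + n3))) = 1 := by
      rw [← map_mul, ← Nat.cast_mul, hcc3, map_one]
    rw [hγ]
    linear_combination ψ₃ (c : ZMod (3 ^ (B + n3))) * ψ₃ (c' : ZMod (3 ^ (B + n3))) * e2 + e3
  set R := (A + n2) + (B + n3) with hR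
  -- the traces
  have hT : ∀ x : ℕ, ∑ j ∈ range (2 ^ R * 3 ^ R), ((ψ₂ (x : ZMod (2 ^ (A + n2))) * ψ₃ (x : ZMod (3 ^ (B + n3)))) * γ⁻¹) ^ (p ^ g) ^ j =
      if ((((2 ^ A : ℕ) : ℤ) ∣ (x : ℤ) - c ∨ ((2 ^ A : ℕ) : ℤ) ∣ (x : ℤ) + c) ∧
        (((3 ^ B : ℕ) : ℤ) ∣ (x : ℤ) - c ∨ ((3 ^ B : ℕ) : ℤ) ∣ (x : ℤ) + c))
      then (2 ^ R * 3 ^ R : ℕ) * ((ψ₂ (x : ZMod (2 ^ (A + n2))) * ψ₃ (x : ZMod (3 ^ (B + n3)))) * γ⁻¹) else 0 := by
    intro x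
    by_cases hx : x.Coprime 6
    · obtain ⟨hx2, hx3⟩ := cop6_iff.1 hx
      have hz : (ψ₂ (x : ZMod (2 ^ (A + n2))) * ψ₃ (x : ZMod (3 ^ (B + n3)))) * γ⁻¹ =
          ψ₂ ((x * c' : ℕ) : ZMod (2 ^ (A + n2))) * ψ₃ ((x * c' : ℕ) : ZMod (3 ^ (B + n3))) := by
        rw [← hγ', Nat.cast_mul, Nat.cast_mul, map_mul, map_mul]
        ring
      have hz0 : (ψ₂ (x : ZMod (2 ^ (A + n2))) * ψ₃ (x : ZMod (3 ^ (B + n3)))) * γ⁻¹ ≠ 0 :=
        mul_ne_zero (mul_ne_zero (hu2 x hx2) (hu3 x hx3)) (inv_ne_zero hγ0)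
      have i2 := ker_iff (n := n2) (u := 3 ^ n3 * u) ψ₂ hA2 (by omega) (by omega) D.p2 (by rw [D.hq]; ring)
        (Nat.Coprime.mul_left (Nat.Coprime.pow_left _ (by norm_num)) (cop6_iff.1 D.hu).1) heven hcc2 hx2
      have i3 := ker_iff (n := n3) (u := 2 ^ n2 * u) ψ₃ hA3 (by omega) (by omega) D.p3 (by rw [D.hq]; ring)
        (Nat.Coprime.mul_left (Nat.Coprime.pow_left _ (by norm_num)) (cop6_iff.1 D.hu).2) heven hcc3 hx3
      rw [Nat.add_sub_cancel] at i2 i3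
      set X := ψ₂ ((x * c' : ℕ) : ZMod (2 ^ (A + n2))) with hX
      set Y := ψ₃ ((x * c' : ℕ) : ZMod (3 ^ (B + n3))) with hY
      have hX1 : (X ^ (p ^ g - 1)) ^ 2 ^ (A + n2) = 1 := by
        rw [← pow_mul, mul_comm, pow_mul, hX, two_part (by omega) ψ₂ (hx2.mul_left hc'2), one_pow]
      have hY1 : (Y ^ (p ^ g - 1)) ^ 3 ^ (B + n3) = 1 := three_part (by omega) heven ψ₃ (hx3.mul_left hc'3)
      rw [hz] at hz0 ⊢
      split_ifs with hcase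
      · exact trace_one _ hq1 (by rw [mul_pow, i2.2 hcase.1, i3.2 hcase.2, one_mul])
      · refine trace_zero2 hA2 hA3 _ hz0 ?_ ?_
        · intro h
          rw [mul_pow] at h
          have h' := one_of_two h hX1 hY1
          exact hcase ⟨i2.1 h'.1, i3.1 h'.2⟩
        · rw [mul_pow, mul_pow]
          have h1 : (X ^ (p ^ g - 1)) ^ (2 ^ R * 3 ^ R) = 1 := by
            rw [hR, pow_add 2 (A + n2) (B + n3), mul_assoc, pow_mul, hX1, one_pow]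
          have h2 : (Y ^ (p ^ g - 1)) ^ (2 ^ R * 3 ^ R) = 1 := by
            rw [hR, pow_add 3 (A + n2) (B + n3), show 2 ^ (A + n2 + (B + n3)) * (3 ^ (A + n2) * 3 ^ (B + n3)) =
              3 ^ (B + n3) * (2 ^ (A + n2 + (B + n3)) * 3 ^ (A + n2)) by ring,
              pow_mul, hY1, one_pow]
          rw [h1, h2, one_mul]
    · have h0 : ψ₂ (x : ZMod (2 ^ (A + n2))) * ψ₃ (x : ZMod (3 ^ (B + n3))) = 0 := by
        rw [cop6_iff, not_and_or] at hx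
        rcases hx with hx | hx
        · rw [ψ₂.map_nonunit, zero_mul]
          rw [ZMod.isUnit_iff_coprime]
          intro h
          exact hx (Nat.Coprime.coprime_dvd_right (dvd_pow_self 2 (by omega)) h)
        · rw [ψ₃.map_nonunit, mul_zero]
          rw [ZMod.isUnit_iff_coprime]
          intro h
          exact hx (Nat.Coprime.coprime_dvd_right (dvd_pow_self 3 (by omega)) h)
      rw [h0, zero_mul, mul_zero, ite_self]
      refine Finset.sum_eq_zero fun j _ => zero_pow ?_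
      exact (Nat.pos_of_ne_zero (pow_ne_zero _ (by omega))).ne'
  have h1 : ∑ j ∈ range (2 ^ R * 3 ^ R), (γ⁻¹) ^ (p ^ g) ^ j * ∑ x ∈ range N,
      ψ₁ (x : ZMod N₁) * (ψ₂ (x : ZMod (2 ^ (A + n2))) * ψ₃ (x : ZMod (3 ^ (B + n3)))) ^ (p ^ g) ^ j *
        Polynomial.aeval ((x : k) / (N : ℕ)) (FF m) = 0 := by
    simp only [hSj, mul_zero, Finset.sum_const_zero]
  simp only [Finset.mul_sum] at h1
  rw [Finset.sum_comm] at h1
  have h2 : ∀ x ∈ range N, ∑ j ∈ range (2 ^ R * 3 ^ R), (γ⁻¹) ^ (p ^ g) ^ j * (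
      ψ₁ (x : ZMod N₁) * (ψ₂ (x : ZMod (2 ^ (A + n2))) * ψ₃ (x : ZMod (3 ^ (B + n3)))) ^ (p ^ g) ^ j *
        Polynomial.aeval ((x : k) / (N : ℕ)) (FF m)) =
      ((2 ^ R * 3 ^ R : ℕ) * γ⁻¹) *
      (if ((((2 ^ A : ℕ) : ℤ) ∣ (x : ℤ) - c ∨ ((2 ^ A : ℕ) : ℤ) ∣ (x : ℤ) + c) ∧
        (((3 ^ B : ℕ) : ℤ) ∣ (x : ℤ) - c ∨ ((3 ^ B : ℕ) : ℤ) ∣ (x : ℤ) + c))
      then χ (x : ZMod N) * Polynomial.aeval ((x : k) / (N : ℕ)) (FF m) else 0) := by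
    intro x _
    have h4 : ∀ j, (γ⁻¹) ^ (p ^ g) ^ j * (ψ₁ (x : ZMod N₁) *
        (ψ₂ (x : ZMod (2 ^ (A + n2))) * ψ₃ (x : ZMod (3 ^ (B + n3)))) ^ (p ^ g) ^ j *
        Polynomial.aeval ((x : k) / (N : ℕ)) (FF m)) =
        (ψ₁ (x : ZMod N₁) * Polynomial.aeval ((x : k) / (N : ℕ)) (FF m)) *
          ((ψ₂ (x : ZMod (2 ^ (A + n2))) * ψ₃ (x : ZMod (3 ^ (B + n3)))) * γ⁻¹) ^ (p ^ g) ^ j := by
      intro j
      rw [mul_pow _ (γ⁻¹)]
      ring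
    simp only [h4]
    rw [← Finset.mul_sum, hT, D.hχ]
    split_ifs
    · ring
    · ring
  rw [Finset.sum_congr rfl h2, ← Finset.mul_sum] at h1
  rcases mul_eq_zero.1 h1 with h4 | h4
  · exfalso
    rcases mul_eq_zero.1 h4 with h5 | h5
    · push_cast at h5
      exact mul_ne_zero (pow_ne_zero _ h2k) (pow_ne_zero _ h3k) h5
    · exact inv_ne_zero hγ0 h5
  · exact h4

end

section
variable {k : Type*} [Field k]

/-- the sum over the class of `c` modulo `2^A 3^B` -/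
noncomputable def T3 (L M m N : ℕ) (χ : MulChar (ZMod N) k) (c : ℕ) : k :=
  ∑ t ∈ range L, χ ((c + M * t : ℕ) : ZMod N) *
    Polynomial.aeval (((c + M * t : ℕ) : k) / (N : ℕ)) (FF m)

variable {p g n2 n3 u N₁ A B m N : ℕ} {χ : MulChar (ZMod N) k}
    {ψ₁ : MulChar (ZMod N₁) k} {ψ₂ : MulChar (ZMod (2 ^ (A + n2))) k}
    {ψ₃ : MulChar (ZMod (3 ^ (B + n3))) k} [Fact p.Prime] [CharP k p]
    (D : Hyp p g n2 n3 u N₁ A B m N χ ψ₁ ψ₂ ψ₃)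

include D

omit [Fact p.Prime] [CharP k p] in
lemma Hyp.class_E {c : ℕ} (hc : c.Coprime 6) :
    ∑ t ∈ range (N₁ * (2 ^ n2 * 3 ^ n3)), χ ((c + 2 ^ A * 3 ^ B * t : ℕ) : ZMod N) = 0 := by
  obtain ⟨hc2, hc3⟩ := cop6_iff.1 hc
  obtain ⟨σ, hσ⟩ := exists_inv (r := 2 ^ n2) (by positivity) (hc2.pow_right n2)
  obtain ⟨τ, hτ⟩ := exists_inv (r := 3 ^ n3) (by positivity) (hc3.pow_right n3)
  simp only [D.shift hσ hτ]
  rw [← Finset.mul_sum, E_zero, mul_zero]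
  · exact dvd_mul_right _ _
  · rw [mul_pow, ← pow_mul, ← pow_mul,
      show σ * 3 ^ B * (N₁ * (2 ^ n2 * 3 ^ n3)) = 2 ^ n2 * (σ * 3 ^ B * N₁ * 3 ^ n3) by ring,
      show τ * 2 ^ A * (N₁ * (2 ^ n2 * 3 ^ n3)) = 3 ^ n3 * (τ * 2 ^ A * N₁ * 2 ^ n2) by ring,
      pow_mul _ (2 ^ n2) _, pow_mul _ (3 ^ n3) _, D.x2_pow, D.x3_pow, one_pow, one_pow, one_mul]
  · refine xi_ne (n2 := n2) (n3 := n3) ?_ ?_ ?_ D.hN6
    · rw [← pow_mul, mul_comm, pow_mul, D.x2_pow, one_pow]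
    · refine D.x2_ne (Nat.Coprime.mul_left ?_ (Nat.Coprime.pow_left _ (by norm_num)))
      exact cop_of_inv (dvd_pow_self 2 (by have := D.h8; omega)) hσ
    · rw [← pow_mul, mul_comm, pow_mul, D.x3_pow, one_pow]

theorem Hyp.two_class
    (hS : ∑ x ∈ range N, χ (x : ZMod N) * Polynomial.aeval ((x : k) / (N : ℕ)) (FF m) = 0)
    {c₁ c₂ : ℕ} (hc₁ : c₁.Coprime 6) (hc₂ : c₂.Coprime 6)
    (hl₁ : c₁ < 2 ^ A * 3 ^ B) (hl₂ : c₂ < 2 ^ A * 3 ^ B)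
    (r1 : ((2 ^ A : ℕ) : ℤ) ∣ (c₂ : ℤ) - c₁) (r2 : ((3 ^ B : ℕ) : ℤ) ∣ (c₂ : ℤ) + c₁) :
    T3 (N₁ * (2 ^ n2 * 3 ^ n3)) (2 ^ A * 3 ^ B) m N χ c₁ +
      T3 (N₁ * (2 ^ n2 * 3 ^ n3)) (2 ^ A * 3 ^ B) m N χ c₂ = 0 := by
  have h4 := D.four_class hS hc₁
  have h2k : (2 : k) ≠ 0 := by
    have := D.nat_ne (D.pnot Nat.prime_two (by norm_num))
    exact_mod_cast this
  have hNk : ((N : ℕ) : k) ≠ 0 := D.nat_ne D.pN
  have h01 : 0 < c₁ := Nat.pos_of_ne_zero (by rintro rfl; norm_num at hc₁)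
  have h02 : 0 < c₂ := Nat.pos_of_ne_zero (by rintro rfl; norm_num at hc₂)
  set M := 2 ^ A * 3 ^ B with hM
  have hMN : M ∣ N := ⟨_, D.ML⟩
  set f : ℕ → k := fun x => χ (x : ZMod N) * Polynomial.aeval ((x : k) / (N : ℕ)) (FF m) with hf
  have hcs : ∀ (f : ℕ → k) (c : ℕ), c < M → ∑ x ∈ range N, (if x % M = c then f x else 0) =
      ∑ t ∈ range (N₁ * (2 ^ n2 * 3 ^ n3)), f (c + M * t) := by
    intro f c hc
    rw [← class_sum M (N₁ * (2 ^ n2 * 3 ^ n3)) c hc f]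
    congr 2
    exact D.ML
  have hTT : ∀ c, c < M → T3 (N₁ * (2 ^ n2 * 3 ^ n3)) M m N χ c =
      ∑ x ∈ range N, (if x % M = c then f x else 0) := by
    intro c hc
    rw [hcs f c hc]
    rfl
  have hE : ∀ c, c < M → c.Coprime 6 → ∑ x ∈ range N,
      (if x % M = c then χ (x : ZMod N) else 0) = 0 := by
    intro c hc hc6
    rw [hcs (fun x => χ (x : ZMod N)) c hc]
    exact D.class_E hc6
  have hrefl : ∀ c, 0 < c → c < M → c.Coprime 6 → ∑ x ∈ range N, (if x % M = M - c then f x else 0) =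
      ∑ x ∈ range N, (if x % M = c then f x else 0) := by
    intro c hc0 hc hc6
    exact refl_class hMN hc0 hc χ hNk (FF m) _ (fun x => FF_aeval_refl m x) D.hpar (hE c hc hc6)
  -- the four classes
  have hA := D.hA
  have hB := D.hB
  have h8 := D.h8
  have h3 := D.h3
  have hM2 := not_two (A := A) (by omega) hc₁
  have hM2' := not_two (A := A) (by omega) hc₂
  have hM3 := not_three (B := B) (by omega) hc₁
  have hkey : ∀ x : ℕ, (if ((((2 ^ A : ℕ) : ℤ) ∣ (x : ℤ) - c₁ ∨ ((2 ^ A : ℕ) : ℤ) ∣ (x : ℤ) + c₁) ∧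
        (((3 ^ B : ℕ) : ℤ) ∣ (x : ℤ) - c₁ ∨ ((3 ^ B : ℕ) : ℤ) ∣ (x : ℤ) + c₁)) then f x else 0) =
      (if x % M = c₁ then f x else 0) + (if x % M = M - c₁ then f x else 0) +
      (if x % M = c₂ then f x else 0) + (if x % M = M - c₂ then f x else 0) := by
    intro x
    apply ite_four
    · rw [mod_iff_dvd hl₁, mod_iff_dvd' h01 hl₁, mod_iff_dvd hl₂, mod_iff_dvd' h02 hl₂, hM,
        dvd_both, dvd_both, dvd_both, dvd_both]
      rw [dvd_congr_sub r1, dvd_congr_sub' r2, dvd_congr_add r1, dvd_congr_add' r2]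
      tauto
    · rintro ⟨h, h'⟩
      rw [mod_iff_dvd hl₁, hM, dvd_both] at h
      rw [mod_iff_dvd' h01 hl₁, hM, dvd_both] at h'
      apply hM2
      have := dvd_sub h'.1 h.1
      have e : (x : ℤ) + c₁ - (x - c₁) = 2 * c₁ := by ring
      rwa [e] at this
    · rintro ⟨h, h'⟩
      rw [mod_iff_dvd hl₁, hM, dvd_both] at h
      rw [mod_iff_dvd hl₂, hM, dvd_both] at h'
      apply hM3
      have := dvd_add (dvd_sub h'.2 h.2) r2
      have e : (x : ℤ) - c₂ - (x - c₁) + (c₂ + c₁) = 2 * c₁ := by ring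
      rwa [e] at this
    · rintro ⟨h, h'⟩
      rw [mod_iff_dvd hl₁, hM, dvd_both] at h
      rw [mod_iff_dvd' h02 hl₂, hM, dvd_both] at h'
      apply hM2
      have := dvd_sub (dvd_sub h'.1 h.1) r1
      have e : (x : ℤ) + c₂ - (x - c₁) - (c₂ - c₁) = 2 * c₁ := by ring
      rwa [e] at this
    · rintro ⟨h, h'⟩
      rw [mod_iff_dvd' h01 hl₁, hM, dvd_both] at h
      rw [mod_iff_dvd hl₂, hM, dvd_both] at h'
      apply hM2'
      have := dvd_add (dvd_sub h.1 h'.1) r1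
      have e : (x : ℤ) + c₁ - (x - c₂) + (c₂ - c₁) = 2 * c₂ := by ring
      rwa [e] at this
    · rintro ⟨h, h'⟩
      rw [mod_iff_dvd' h01 hl₁, hM, dvd_both] at h
      rw [mod_iff_dvd' h02 hl₂, hM, dvd_both] at h'
      apply hM3
      have := dvd_sub r2 (dvd_sub h'.2 h.2)
      have e : (c₂ : ℤ) + c₁ - (x + c₂ - (x + c₁)) = 2 * c₁ := by ring
      rwa [e] at this
    · rintro ⟨h, h'⟩
      rw [mod_iff_dvd hl₂, hM, dvd_both] at h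
      rw [mod_iff_dvd' h02 hl₂, hM, dvd_both] at h'
      apply hM2'
      have := dvd_sub h'.1 h.1
      have e : (x : ℤ) + c₂ - (x - c₂) = 2 * c₂ := by ring
      rwa [e] at this
  have h5 : ∑ x ∈ range N, ((if x % M = c₁ then f x else 0) + (if x % M = M - c₁ then f x else 0) +
      (if x % M = c₂ then f x else 0) + (if x % M = M - c₂ then f x else 0)) = 0 := by
    refine Eq.trans (Finset.sum_congr rfl fun x _ => (hkey x).symm) h4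
  rw [Finset.sum_add_distrib, Finset.sum_add_distrib, Finset.sum_add_distrib, hrefl c₁ h01 hl₁ hc₁,
    hrefl c₂ h02 hl₂ hc₂, ← hTT c₁ hl₁, ← hTT c₂ hl₂] at h5
  have h6 : 2 * (T3 (N₁ * (2 ^ n2 * 3 ^ n3)) M m N χ c₁ + T3 (N₁ * (2 ^ n2 * 3 ^ n3)) M m N χ c₂) = 0 := by
    linear_combination h5
  rcases mul_eq_zero.1 h6 with h7 | h7
  · exact absurd h7 h2k
  · exact h7

end

end Pool.Agent.Q23.EF
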