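import Pool.Agent.Q23.EF.Top

/-!
# Levels `N₁ 2^a 3^b`: the nonvanishing modulo `p`
-/

set_option autoImplicit false

namespace Pool.Agent.Q23.EF

open Finset Polynomial Pool.Agent.Y18.GX Pool.Agent.H178.GC

section
variable {k : Type*} [Field k] {p g n2 n3 u N₁ A B m N : ℕ} {χ : MulChar (ZMod N) k}
    {ψ₁ : MulChar (ZMod N₁) k} {ψ₂ : MulChar (ZMod (2 ^ (A + n2))) k}
    {ψ₃ : MulChar (ZMod (3 ^ (B + n3))) k}
    [Fact p.Prime] [CharP k p] (D : Hyp p g n2 n3 u N₁ A B m N χ ψ₁ ψ₂ ψ₃)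
include D

theorem Hyp.rel'
    (hS : ∑ x ∈ range N, χ (x : ZMod N) * Polynomial.aeval ((x : k) / (N : ℕ)) (FF m) = 0)
    (hm1 : 1 ≤ m) (hmp : m < p)
    (hsize : 2 * (N₁ * 2 ^ A) + N₁ * (2 ^ n2 * 3 ^ n3) * m * 3 ^ B < 2 ^ A * 3 ^ B)
    {s σ τ : ℕ} (hs : ¬ 2 ∣ s) (hσ : s * 3 ^ B * σ ≡ 1 [MOD 2 ^ n2])
    (hτ : N₁ * 2 ^ A * τ ≡ 1 [MOD 3 ^ n3]) :
    om N₁ ψ₂ ψ₃ s σ τ * DD ψ₁ (N₁ * (2 ^ n2 * 3 ^ n3)) (2 ^ A * 3 ^ B) (s * 3 ^ B)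
        (ψ₂ ((1 + 2 ^ A : ℕ) : ZMod (2 ^ (A + n2))) ^ (σ * 3 ^ B) *
          ψ₃ ((1 + 3 ^ B : ℕ) : ZMod (3 ^ (B + n3))) ^ (τ * 2 ^ A)) +
      DD ψ₁ (N₁ * (2 ^ n2 * 3 ^ n3)) (2 ^ A * 3 ^ B) (s * 3 ^ B)
        (ψ₂ ((1 + 2 ^ A : ℕ) : ZMod (2 ^ (A + n2))) ^ (σ * 3 ^ B) *
          (ψ₃ ((1 + 3 ^ B : ℕ) : ZMod (3 ^ (B + n3))) ^ (τ * 2 ^ A))⁻¹) = 0 := by
  have hN0 := D.N0
  have h8 := D.h8
  have hLpos : 0 < N₁ * (2 ^ n2 * 3 ^ n3) := by positivity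
  set L := N₁ * (2 ^ n2 * 3 ^ n3) with hL
  set S := N₁ * 2 ^ A / 3 ^ B + 1 with hSd
  -- the representative
  obtain ⟨s', hs1, hs2, hs3⟩ : ∃ s', S ≤ s' ∧ s' < S + L ∧ s' ≡ s [MOD L] := by
    refine ⟨S + (s + (L - 1) * S) % L, Nat.le_add_right _ _, ?_, ?_⟩
    · have := Nat.mod_lt (s + (L - 1) * S) hLpos
      omega
    · have h1 : S + (s + (L - 1) * S) % L ≡ S + (s + (L - 1) * S) [MOD L] :=
        (Nat.mod_modEq _ _).add_left S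
      refine h1.trans ?_
      have h2 : S + (s + (L - 1) * S) = s + L * S := by
        obtain ⟨w, hw⟩ : ∃ w, L = w + 1 := ⟨L - 1, by omega⟩
        rw [hw, Nat.add_sub_cancel]
        ring
      rw [h2, Nat.ModEq, Nat.add_mul_mod_self_left]
  have h3pos : 0 < 3 ^ B := by positivity
  have hd1 : N₁ * 2 ^ A < S * 3 ^ B := by
    rw [hSd, add_mul, one_mul]
    have := Nat.lt_div_mul_add (a := N₁ * 2 ^ A) h3pos
    exact this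
  have hd2 : S * 3 ^ B ≤ N₁ * 2 ^ A + 3 ^ B := by
    rw [hSd, add_mul, one_mul]
    have := Nat.div_mul_le_self (N₁ * 2 ^ A) (3 ^ B)
    omega
  have hr1 : N₁ * 2 ^ A < s' * 3 ^ B := lt_of_lt_of_le hd1 (Nat.mul_le_mul_right _ hs1)
  have hr2 : (s' + L * (m - 1)) * 3 ^ B + N₁ * 2 ^ A < 2 ^ A * 3 ^ B := by
    have h1 : s' + 1 + L * (m - 1) ≤ S + L * m := by
      obtain ⟨w, hw⟩ : ∃ w, m = w + 1 := ⟨m - 1, by omega⟩
      rw [hw, Nat.add_sub_cancel, mul_add, mul_one]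
      omega
    have h2 := Nat.mul_le_mul_right (3 ^ B) h1
    have h4 : (s' + 1 + L * (m - 1)) * 3 ^ B = (s' + L * (m - 1)) * 3 ^ B + 3 ^ B := by ring
    have h5 : (S + L * m) * 3 ^ B = S * 3 ^ B + L * m * 3 ^ B := by ring
    omega
  have e2 : s' ≡ s [MOD 2 ^ n2] := hs3.of_dvd ((dvd_mul_right _ _).trans (dvd_mul_left _ _))
  have e3 : s' ≡ s [MOD 3 ^ n3] := hs3.of_dvd ((dvd_mul_left _ _).trans (dvd_mul_left _ _))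
  have e1 : s' ≡ s [MOD N₁] := hs3.of_dvd (dvd_mul_right _ _)
  have hs' : ¬ 2 ∣ s' := by
    intro h
    apply hs
    have h1 : s' ≡ s [MOD 2] := e2.of_dvd (dvd_pow_self 2 (by omega))
    exact (Nat.modEq_zero_iff_dvd).1 (h1.symm.trans ((Nat.modEq_zero_iff_dvd).2 h))
  have hσ' : s' * 3 ^ B * σ ≡ 1 [MOD 2 ^ n2] := ((e2.mul_right _).mul_right _).trans hσ
  have h := D.rel hS hm1 hmp hs' hσ' hτ hr1 hr2
  have ho : om N₁ ψ₂ ψ₃ s' σ τ = om N₁ ψ₂ ψ₃ s σ τ := by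
    unfold om
    congr 1
    exact pow_congr_mod D.x3_pow ((e3.mul_left 2).mul_right τ)
  rw [ho, DD_congr ψ₁ (c := s' * 3 ^ B) (c' := s * 3 ^ B) (e1.mul_right _),
    DD_congr ψ₁ (c := s' * 3 ^ B) (c' := s * 3 ^ B) (e1.mul_right _)] at h
  exact h

theorem Hyp.om_neg
    (hS : ∑ x ∈ range N, χ (x : ZMod N) * Polynomial.aeval ((x : k) / (N : ℕ)) (FF m) = 0)
    (hm1 : 1 ≤ m) (hmp : m < p)
    (hsize : 2 * (N₁ * 2 ^ A) + N₁ * (2 ^ n2 * 3 ^ n3) * m * 3 ^ B < 2 ^ A * 3 ^ B)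
    {s σ τ : ℕ} (hs : ¬ 2 ∣ s) (hsN : s.Coprime N₁) (hσ : s * 3 ^ B * σ ≡ 1 [MOD 2 ^ n2])
    (hτ : N₁ * 2 ^ A * τ ≡ 1 [MOD 3 ^ n3]) :
    om N₁ ψ₂ ψ₃ s σ τ = -1 := by
  have h8 := D.h8
  have h3 := D.h3
  have hA := D.hA
  have hB := D.hB
  have r1 := D.rel' hS hm1 hmp hsize hs hσ hτ
  have hs' : ¬ 2 ∣ s + 2 ^ A := fun h => hs ((Nat.dvd_add_left (dvd_pow_self 2 (by omega))).1 h)
  have hσ' : (s + 2 ^ A) * 3 ^ B * σ ≡ 1 [MOD 2 ^ n2] := by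
    refine Nat.ModEq.trans ?_ hσ
    refine ((?_ : s + 2 ^ A ≡ s [MOD 2 ^ n2]).mul_right _).mul_right _
    obtain ⟨A', hA'⟩ : ∃ A', A = n2 + A' := ⟨A - n2, by omega⟩
    rw [hA', pow_add, Nat.ModEq, Nat.add_mul_mod_self_left]
  have r2 := D.rel' hS hm1 hmp hsize hs' hσ' hτ
  have hLk : ((N₁ * (2 ^ n2 * 3 ^ n3) : ℕ) : k) ≠ 0 := by
    have h5 := D.nat_ne D.pN
    rw [D.ML, Nat.cast_mul] at h5
    exact right_ne_zero_of_mul h5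
  set L := N₁ * (2 ^ n2 * 3 ^ n3) with hL
  set M := 2 ^ A * 3 ^ B with hM
  have hσ2 : σ.Coprime 2 := cop_of_inv (dvd_pow_self 2 (by omega)) hσ
  have hz2n := D.x2_ne (Nat.Coprime.mul_left hσ2 (Nat.Coprime.pow_left B (by norm_num : Nat.Coprime 3 2)))
  have hz2p := D.z2_pow (σ * 3 ^ B)
  have hz3p := D.z3_pow (τ * 2 ^ A)
  have ho : om N₁ ψ₂ ψ₃ (s + 2 ^ A) σ τ = om N₁ ψ₂ ψ₃ s σ τ *
      (ψ₃ ((1 + 3 ^ B : ℕ) : ZMod (3 ^ (B + n3))) ^ (τ * 2 ^ A)) ^ 2 := by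
    unfold om
    rw [← pow_mul, mul_assoc (ψ₃ (-1) * ψ₂ ((1 + 2 ^ A : ℕ) : ZMod (2 ^ (A + n2))) ^ (σ * (2 * N₁))), ← pow_add]
    congr 2
    ring
  rw [ho] at r2
  set x2 := ψ₂ ((1 + 2 ^ A : ℕ) : ZMod (2 ^ (A + n2))) with hx2
  set x3 := ψ₃ ((1 + 3 ^ B : ℕ) : ZMod (3 ^ (B + n3))) with hx3
  set z2 := x2 ^ (σ * 3 ^ B) with hz2
  set z3 := x3 ^ (τ * 2 ^ A) with hz3
  set ω := om N₁ ψ₂ ψ₃ s σ τ with hω
  have hz30 : z3 ≠ 0 := by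
    intro h
    rw [h, zero_pow (pow_ne_zero _ (by norm_num))] at hz3p
    exact zero_ne_one hz3p
  have hz3i : (z3⁻¹) ^ 3 ^ n3 = 1 := by rw [inv_pow, hz3p, inv_one]
  have d1 := DD_shift ψ₁ (L := L) (M := M) (c := s * 3 ^ B) (ξ := z2 * z3) (dvd_mul_right _ _)
    (pow_L hz2p hz3p) (xi_ne hz2p hz2n hz3p D.hN6)
  have d2 := DD_shift ψ₁ (L := L) (M := M) (c := s * 3 ^ B) (ξ := z2 * z3⁻¹) (dvd_mul_right _ _)
    (pow_L hz2p hz3i) (xi_ne hz2p hz2n hz3i D.hN6)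
  have hcM : (s + 2 ^ A) * 3 ^ B = s * 3 ^ B + M := by rw [hM]; ring
  rw [hcM] at r2
  have hψ : ψ₁ ((s * 3 ^ B : ℕ) : ZMod N₁) ≠ 0 := by
    refine (((ZMod.isUnit_iff_coprime (s * 3 ^ B) N₁).2 ?_).map ψ₁).ne_zero
    refine Nat.Coprime.mul_left hsN (Nat.Coprime.pow_left _ ?_)
    exact (cop6_iff.1 D.hN6).2.symm
  have hz : z3 * z3⁻¹ = 1 := mul_inv_cancel₀ hz30
  have hfin : ((L : ℕ) : k) * ψ₁ ((s * 3 ^ B : ℕ) : ZMod N₁) * (ω + 1) = 0 := by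
    linear_combination (z2 * z3⁻¹) * r2 - r1 - ω * d1 - d2 - (ω * z2 * z3 *
      DD ψ₁ L M (s * 3 ^ B + M) (z2 * z3)) * hz
  rcases mul_eq_zero.1 hfin with h | h
  · rcases mul_eq_zero.1 h with h | h
    · exact absurd h hLk
    · exact absurd h hψ
  · exact eq_neg_of_add_eq_zero_left h

/-- the nonvanishing modulo `p` -/
theorem Hyp.core2
    (hm1 : 1 ≤ m) (hmp : m < p)
    (hsize : 2 * (N₁ * 2 ^ A) + N₁ * (2 ^ n2 * 3 ^ n3) * m * 3 ^ B < 2 ^ A * 3 ^ B) :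
    ∑ x ∈ range N, χ (x : ZMod N) * Polynomial.aeval ((x : k) / (N : ℕ)) (FF m) ≠ 0 := by
  intro hS
  have h8 := D.h8
  have h3 := D.h3
  obtain ⟨hN2, hN3⟩ := cop6_iff.1 D.hN6
  obtain ⟨σ, hσ⟩ := exists_inv (c := 3 ^ B) (r := 2 ^ n2) (by positivity)
    (Nat.Coprime.pow B n2 (by norm_num : Nat.Coprime 3 2))
  obtain ⟨τ, hτ⟩ := exists_inv (c := N₁ * 2 ^ A) (r := 3 ^ n3) (by positivity)
    ((Nat.Coprime.mul_left hN3 (Nat.Coprime.pow_left A (by norm_num : Nat.Coprime 2 3))).pow_right n3)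
  have hτ3 : τ.Coprime 3 := cop_of_inv (dvd_pow_self 3 (by omega)) hτ
  have h1 := D.om_neg hS hm1 hmp hsize (s := 1) (σ := σ) (τ := τ) (by norm_num) (Nat.coprime_one_left _)
    (by rw [one_mul]; exact hσ) hτ
  have h2d : 2 ∣ 2 ^ n2 * N₁ := (dvd_pow_self 2 (by omega)).mul_right _
  have h2 := D.om_neg hS hm1 hmp hsize (s := 1 + 2 ^ n2 * N₁) (σ := σ) (τ := τ) (by omega) (by
      rw [Nat.coprime_add_mul_right_left]
      exact Nat.coprime_one_left _) (by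
      refine Nat.ModEq.trans ?_ hσ
      have : 1 + 2 ^ n2 * N₁ ≡ 1 [MOD 2 ^ n2] := by rw [Nat.ModEq, Nat.add_mul_mod_self_left]
      have h4 := (this.mul_right (3 ^ B)).mul_right σ
      rwa [one_mul] at h4) hτ
  have h4 : om N₁ ψ₂ ψ₃ (1 + 2 ^ n2 * N₁) σ τ = om N₁ ψ₂ ψ₃ 1 σ τ *
      ψ₃ ((1 + 3 ^ B : ℕ) : ZMod (3 ^ (B + n3))) ^ (2 * (2 ^ n2 * N₁) * τ) := by
    unfold om
    rw [mul_assoc _ (ψ₃ ((1 + 3 ^ B : ℕ) : ZMod (3 ^ (B + n3))) ^ (2 * 1 * τ)), ← pow_add]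
    congr 2
    ring
  rw [h2, h1] at h4
  refine D.x3_ne (e := 2 * (2 ^ n2 * N₁) * τ) ?_ (by linear_combination h4)
  refine Nat.Coprime.mul_left (Nat.Coprime.mul_left (by norm_num) (Nat.Coprime.mul_left ?_ hN3)) hτ3
  exact Nat.Coprime.pow_left _ (by norm_num)

/-- the Euler factor -/
theorem Hyp.euler2 (hg : Even g) (hA : n2 < A) : χ (p : ZMod N) ≠ 1 := by
  intro h
  have hp := (Fact.out : p.Prime)
  have hp5 := D.hp5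
  have h8 := D.h8
  have h3 := D.h3
  have hB := D.hB
  have hq1 := D.q1
  rw [D.hχ] at h
  have hx0 : ψ₁ (p : ZMod N₁) ≠ 0 := left_ne_zero_of_mul_eq_one h
  have hx : ψ₁ (p : ZMod N₁) ^ (p ^ g - 1) = 1 := by
    have h2 := D.hψ₁ (p : ZMod N₁)
    have h4 : ψ₁ (p : ZMod N₁) ^ (p ^ g - 1) * ψ₁ (p : ZMod N₁) = 1 * ψ₁ (p : ZMod N₁) := by
      rw [← pow_succ, Nat.sub_add_cancel hq1, one_mul, h2]
    exact mul_right_cancel₀ hx0 h4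
  have hy := congrArg (fun z => z ^ (p ^ g - 1)) h
  simp only [mul_pow, hx, one_mul, one_pow] at hy
  have hp2 : p.Coprime 2 := (Nat.coprime_primes hp Nat.prime_two).2 (by omega)
  have hp3 : p.Coprime 3 := (Nat.coprime_primes hp Nat.prime_three).2 (by omega)
  have hX1 : (ψ₂ (p : ZMod (2 ^ (A + n2))) ^ (p ^ g - 1)) ^ 2 ^ (A + n2) = 1 := by
    rw [← pow_mul, mul_comm, pow_mul, two_part (by omega) ψ₂ hp2, one_pow]
  have hY1 : (ψ₃ (p : ZMod (3 ^ (B + n3))) ^ (p ^ g - 1)) ^ 3 ^ (B + n3) = 1 :=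
    three_part (by omega) D.even ψ₃ hp3
  have h5 := (one_of_two hy hX1 hY1).1
  have hker := kernel (n := n2) (u := 3 ^ n3 * u) ψ₂ D.A2 (by omega) (by omega) D.p2 (by rw [D.hq]; ring)
    (Nat.Coprime.mul_left (Nat.Coprime.pow_left _ (by norm_num)) (cop6_iff.1 D.hu).1) hp2 h5
  rw [Nat.add_sub_cancel] at hker
  have hdvd : 2 ^ A ∣ p ^ g - 1 := by
    obtain ⟨g', hg'⟩ := hg
    have h6 : 2 ^ A ∣ (p - 1) * (p + 1) := by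
      rcases hker with h6 | h6
      · exact h6.mul_right _
      · exact h6.mul_left _
    have h7 : (p - 1) * (p + 1) = p ^ 2 - 1 := by
      obtain ⟨w, hw⟩ : ∃ w, p = w + 1 := ⟨p - 1, by omega⟩
      rw [hw, Nat.add_sub_cancel]
      have : (w + 1) ^ 2 = w * (w + 1 + 1) + 1 := by ring
      omega
    rw [h7] at h6
    have h9 : 1 ≡ p ^ 2 [MOD 2 ^ A] := (Nat.modEq_iff_dvd' (Nat.one_le_pow _ _ hp.pos)).2 h6
    have h10 := h9.pow g'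
    rw [one_pow, ← pow_mul] at h10
    have h11 : 2 * g' = g := by omega
    rw [h11] at h10
    exact (Nat.modEq_iff_dvd' hq1).1 h10
  rw [D.hq] at hdvd
  have h6 : 2 ^ n2 * 2 ∣ 2 ^ n2 * (3 ^ n3 * u) := by
    rw [← mul_assoc, ← pow_succ]
    exact (pow_dvd_pow _ (by omega)).trans hdvd
  have h7 : 2 ∣ 3 ^ n3 * u := Nat.dvd_of_mul_dvd_mul_left (by positivity) h6
  have h9 : (3 ^ n3 * u).Coprime 2 :=
    Nat.Coprime.mul_left (Nat.Coprime.pow_left _ (by norm_num)) (cop6_iff.1 D.hu).1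
  have h10 := Nat.dvd_gcd h7 (dvd_refl 2)
  rw [h9] at h10
  omega

end

end Pool.Agent.Q23.EF
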