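import Pool.Agent.Q23.EF.Four
import Pool.Agent.H178.GC.Rel

/-!
# Levels `N₁ 2^a 3^b`: the top coefficients and the nonvanishing
-/

set_option autoImplicit false

namespace Pool.Agent.Q23.EF

open Finset Polynomial Pool.Agent.Y18.GX Pool.Agent.H178.GC

section
variable {k : Type*} [Field k] {N₁ : ℕ}

/-- the weighted sum over the class of `c` -/
noncomputable def DD (ψ₁ : MulChar (ZMod N₁) k) (L M c : ℕ) (ξ : k) : k :=
  ∑ t ∈ range L, ψ₁ ((c + M * t : ℕ) : ZMod N₁) * ξ ^ t * (t : k)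

lemma DD_congr (ψ₁ : MulChar (ZMod N₁) k) {L M c c' : ℕ} {ξ : k} (h : c ≡ c' [MOD N₁]) :
    DD ψ₁ L M c ξ = DD ψ₁ L M c' ξ := by
  unfold DD
  refine Finset.sum_congr rfl fun t _ => ?_
  rw [(ZMod.natCast_eq_natCast_iff (c + M * t) (c' + M * t) N₁).2 (h.add_right _)]

lemma DD_shift (ψ₁ : MulChar (ZMod N₁) k) {L M c : ℕ} {ξ : k} (hN₁L : N₁ ∣ L) (hξL : ξ ^ L = 1)
    (hξ : ξ ^ N₁ ≠ 1) :
    ξ * DD ψ₁ L M (c + M) ξ = DD ψ₁ L M c ξ + L * ψ₁ (c : ZMod N₁) := by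
  have h5 : ∑ t ∈ range (L + 1), ψ₁ ((c + M * t : ℕ) : ZMod N₁) * ξ ^ t * (t : k) =
      DD ψ₁ L M c ξ + L * ψ₁ (c : ZMod N₁) := by
    rw [Finset.sum_range_succ, hξL]
    have : ((c + M * L : ℕ) : ZMod N₁) = (c : ZMod N₁) := by
      obtain ⟨w, hw⟩ := hN₁L
      rw [hw]
      push_cast
      simp
    rw [this]
    unfold DD
    ring
  rw [← h5, Finset.sum_range_succ']
  have h4 := E_zero (M := M) ψ₁ ξ hN₁L hξL hξ (c + M)
  have h6 : ∑ t ∈ range L, ψ₁ ((c + M * (t + 1) : ℕ) : ZMod N₁) * ξ ^ (t + 1) * ((t + 1 : ℕ) : k) =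
      ξ * DD ψ₁ L M (c + M) ξ + ξ * ∑ t ∈ range L, ψ₁ ((c + M + M * t : ℕ) : ZMod N₁) * ξ ^ t := by
    unfold DD
    rw [Finset.mul_sum, Finset.mul_sum, ← Finset.sum_add_distrib]
    refine Finset.sum_congr rfl fun t _ => ?_
    have : c + M * (t + 1) = c + M + M * t := by ring
    rw [this]
    push_cast
    ring
  rw [h6, h4, mul_zero, add_zero, Nat.cast_zero, mul_zero, add_zero]

lemma pow_congr_mod {x : k} {r e e' : ℕ} (h : x ^ r = 1) (he : e ≡ e' [MOD r]) : x ^ e = x ^ e' := by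
  have h1 : ∀ e : ℕ, x ^ e = x ^ (e % r) := fun e => by
    conv_lhs => rw [← Nat.mod_add_div e r, pow_add, pow_mul, h, one_pow, mul_one]
  rw [h1 e, h1 e', he]

end

section
variable {k : Type*} [Field k] {p : ℕ} [Fact p.Prime] [CharP k p]

theorem top_rel {N₁ L M W m N : ℕ} (ψ₁ : MulChar (ZMod N₁) k) (F : ℤ[X]) (ξ₁ ξ₂ ω : k)
    (hN : N = M * L) (hN₁L : N₁ ∣ L) (hξ₁L : ξ₁ ^ L = 1) (hξ₂L : ξ₂ ^ L = 1) (hξ₁ : ξ₁ ^ N₁ ≠ 1)
    (hξ₂ : ξ₂ ^ N₁ ≠ 1) (hMk : (M : k) ≠ 0) (hLk : (L : k) ≠ 0) (hWk : (W : k) ≠ 0)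
    (hdeg : F.natDegree ≤ m) (hlead : ((F.coeff m : ℤ) : k) ≠ 0) (hm1 : 1 ≤ m) (hmp : m < p)
    {c₁ c₂ : ℕ}
    (hQ : ∀ j, j < m → ω * ∑ t ∈ range L, ψ₁ ((c₁ + L * W * j + M * t : ℕ) : ZMod N₁) * ξ₁ ^ t *
        Polynomial.aeval (((c₁ + L * W * j + M * t : ℕ) : k) / (N : ℕ)) F +
      ∑ t ∈ range L, ψ₁ ((c₂ + L * W * j + M * t : ℕ) : ZMod N₁) * ξ₂ ^ t *
        Polynomial.aeval (((c₂ + L * W * j + M * t : ℕ) : k) / (N : ℕ)) F = 0) :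
    ω * DD ψ₁ L M c₁ ξ₁ + DD ψ₁ L M c₂ ξ₂ = 0 := by
  have hNk : ((N : ℕ) : k) ≠ 0 := by
    rw [hN]
    push_cast
    exact mul_ne_zero hMk hLk
  set f := F.map (Int.castRingHom k) with hf
  have hfev : ∀ x : k, Polynomial.aeval x F = f.eval x := fun x => by
    rw [hf, eval_map, aeval_def]
    rfl
  have hfdeg : f.natDegree ≤ m := (natDegree_map_le).trans hdeg
  have hfm : f.coeff m ≠ 0 := by
    rw [hf, coeff_map]
    exact hlead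
  set δ : k := ((c₂ : k) - c₁) / N with hδ
  set Q₁ : k[X] := ∑ t ∈ range L, C (ψ₁ ((c₁ + M * t : ℕ) : ZMod N₁) * ξ₁ ^ t) * taylor ((t : k) / L) f with hQ₁
  set Q₂ : k[X] := ∑ t ∈ range L, C (ψ₁ ((c₂ + M * t : ℕ) : ZMod N₁) * ξ₂ ^ t) * taylor ((t : k) / L + δ) f
    with hQ₂
  set Q : k[X] := C ω * Q₁ + Q₂ with hQd
  have hz : ∀ (c j t : ℕ), ((c + L * W * j + M * t : ℕ) : ZMod N₁) = ((c + M * t : ℕ) : ZMod N₁) := by
    intro c j t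
    have h0 : (L : ZMod N₁) = 0 := (ZMod.natCast_eq_zero_iff _ _).2 hN₁L
    push_cast
    rw [h0]
    ring
  have hQev : ∀ j, j < m → Q.eval (((c₁ + L * W * j : ℕ) : k) / N) = 0 := by
    intro j hj
    rw [← hQ j hj, hQd, eval_add, eval_mul, eval_C, hQ₁, hQ₂, eval_finset_sum, eval_finset_sum]
    congr 1
    · congr 1
      refine Finset.sum_congr rfl fun t _ => ?_
      have hx : ((c₁ + L * W * j : ℕ) : k) / N + (t : k) / L = ((c₁ + L * W * j + M * t : ℕ) : k) / N := by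
        rw [hN]
        push_cast
        field_simp
      rw [eval_mul, eval_C, taylor_eval, hfev, hz, hx]
    · refine Finset.sum_congr rfl fun t _ => ?_
      have hx : ((c₁ + L * W * j : ℕ) : k) / N + ((t : k) / L + δ) =
          ((c₂ + L * W * j + M * t : ℕ) : k) / N := by
        rw [hδ, hN]
        push_cast
        field_simp
        ring
      rw [eval_mul, eval_C, taylor_eval, hfev, hz, hx]
  have hE₁ := E_zero (M := M) ψ₁ ξ₁ hN₁L hξ₁L hξ₁ c₁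
  have hE₂ := E_zero (M := M) ψ₁ ξ₂ hN₁L hξ₂L hξ₂ c₂
  have hQdeg : Q.degree < m := by
    rw [degree_lt_iff_coeff_zero]
    intro i hi
    rw [hQd, coeff_add, coeff_C_mul, hQ₁, hQ₂, finset_sum_coeff, finset_sum_coeff]
    rcases hi.eq_or_lt with h1 | h1
    · rw [← h1]
      simp only [coeff_C_mul, taylor_coeff_top f m hfdeg]
      rw [← Finset.sum_mul, ← Finset.sum_mul, hE₁, hE₂, zero_mul, mul_zero, add_zero]
    · rw [Finset.sum_eq_zero, Finset.sum_eq_zero, mul_zero, add_zero]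
      · intro t _
        rw [coeff_C_mul, coeff_eq_zero_of_natDegree_lt, mul_zero]
        rw [natDegree_taylor]
        omega
      · intro t _
        rw [coeff_C_mul, coeff_eq_zero_of_natDegree_lt, mul_zero]
        rw [natDegree_taylor]
        omega
  have hQ0 : Q = 0 := by
    refine eq_zero_of_degree_lt_of_eval_index_eq_zero (s := range m) (f := Q)
      (v := fun j : ℕ => (((c₁ + L * W * j : ℕ) : k) / (N : k) : k)) ?_ (by rwa [card_range])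
      (fun j hj => hQev j (mem_range.1 hj))
    intro i hi j hj hij
    have hi' : i < m := mem_range.1 hi
    have hj' : j < m := mem_range.1 hj
    simp only at hij
    rw [div_left_inj' hNk] at hij
    push_cast at hij
    have h1 : ((L : k) * W) * ((i : k) - j) = 0 := by linear_combination hij
    rcases mul_eq_zero.1 h1 with h2 | h2
    · exact absurd h2 (mul_ne_zero hLk hWk)
    · have h4 : (i : k) = (j : k) := sub_eq_zero.1 h2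
      rw [CharP.cast_eq_iff_mod_eq k p, Nat.mod_eq_of_lt (by omega), Nat.mod_eq_of_lt (by omega)] at h4
      exact h4
  have h1 : Q.coeff (m - 1) = 0 := by rw [hQ0, coeff_zero]
  rw [hQd, coeff_add, coeff_C_mul, hQ₁, hQ₂, finset_sum_coeff, finset_sum_coeff] at h1
  simp only [coeff_C_mul, taylor_coeff_sub f m hm1 hfdeg] at h1
  have h2 : ∑ t ∈ range L, ψ₁ ((c₁ + M * t : ℕ) : ZMod N₁) * ξ₁ ^ t *
      (f.coeff (m - 1) + m * f.coeff m * ((t : k) / L)) = (m * f.coeff m / L) * DD ψ₁ L M c₁ ξ₁ := by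
    have e1 : (m * f.coeff m / L) * DD ψ₁ L M c₁ ξ₁ =
        f.coeff (m - 1) * ∑ t ∈ range L, ψ₁ ((c₁ + M * t : ℕ) : ZMod N₁) * ξ₁ ^ t +
        (m * f.coeff m / L) * DD ψ₁ L M c₁ ξ₁ := by rw [hE₁, mul_zero, zero_add]
    rw [e1, DD, Finset.mul_sum, Finset.mul_sum, ← Finset.sum_add_distrib]
    refine Finset.sum_congr rfl fun t _ => ?_
    ring
  have h3 : ∑ t ∈ range L, ψ₁ ((c₂ + M * t : ℕ) : ZMod N₁) * ξ₂ ^ t *
      (f.coeff (m - 1) + m * f.coeff m * ((t : k) / L + δ)) = (m * f.coeff m / L) * DD ψ₁ L M c₂ ξ₂ := by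
    have e1 : (m * f.coeff m / L) * DD ψ₁ L M c₂ ξ₂ =
        (f.coeff (m - 1) + m * f.coeff m * δ) * ∑ t ∈ range L, ψ₁ ((c₂ + M * t : ℕ) : ZMod N₁) * ξ₂ ^ t +
        (m * f.coeff m / L) * DD ψ₁ L M c₂ ξ₂ := by rw [hE₂, mul_zero, zero_add]
    rw [e1, DD, Finset.mul_sum, Finset.mul_sum, ← Finset.sum_add_distrib]
    refine Finset.sum_congr rfl fun t _ => ?_
    ring
  rw [h2, h3] at h1
  have h4 : (m * f.coeff m / L) * (ω * DD ψ₁ L M c₁ ξ₁ + DD ψ₁ L M c₂ ξ₂) = 0 := by linear_combination h1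
  rcases mul_eq_zero.1 h4 with h5 | h5
  · exfalso
    rw [div_eq_zero_iff] at h5
    rcases h5 with h5 | h5
    · rcases mul_eq_zero.1 h5 with h6 | h6
      · rw [CharP.cast_eq_zero_iff k p] at h6
        have := Nat.le_of_dvd (by omega) h6
        omega
      · exact hfm h6
    · exact hLk h5
  · exact h5

end

section
variable {k : Type*} [Field k] {p g n2 n3 u N₁ A B m N : ℕ} {χ : MulChar (ZMod N) k}
    {ψ₁ : MulChar (ZMod N₁) k} {ψ₂ : MulChar (ZMod (2 ^ (A + n2))) k}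
    {ψ₃ : MulChar (ZMod (3 ^ (B + n3))) k}

/-- the factor of the relation -/
noncomputable def om (N₁ : ℕ) (ψ₂ : MulChar (ZMod (2 ^ (A + n2))) k) (ψ₃ : MulChar (ZMod (3 ^ (B + n3))) k)
    (s σ τ : ℕ) : k :=
  ψ₃ (-1) * ψ₂ ((1 + 2 ^ A : ℕ) : ZMod (2 ^ (A + n2))) ^ (σ * (2 * N₁)) *
    ψ₃ ((1 + 3 ^ B : ℕ) : ZMod (3 ^ (B + n3))) ^ (2 * s * τ)

variable [Fact p.Prime] [CharP k p] (D : Hyp p g n2 n3 u N₁ A B m N χ ψ₁ ψ₂ ψ₃)
include D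

omit [Fact p.Prime] [CharP k p] in
lemma Hyp.z2_pow (e : ℕ) : (ψ₂ ((1 + 2 ^ A : ℕ) : ZMod (2 ^ (A + n2))) ^ e) ^ 2 ^ n2 = 1 := by
  rw [← pow_mul, mul_comm, pow_mul, D.x2_pow, one_pow]

omit [Fact p.Prime] [CharP k p] in
lemma Hyp.z3_pow (e : ℕ) : (ψ₃ ((1 + 3 ^ B : ℕ) : ZMod (3 ^ (B + n3))) ^ e) ^ 3 ^ n3 = 1 := by
  rw [← pow_mul, mul_comm, pow_mul, D.x3_pow, one_pow]

omit D [Fact p.Prime] [CharP k p] in
lemma pow_L {y z : k} (hy : y ^ 2 ^ n2 = 1) (hz : z ^ 3 ^ n3 = 1) : (y * z) ^ (N₁ * (2 ^ n2 * 3 ^ n3)) = 1 := by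
  rw [mul_pow, show N₁ * (2 ^ n2 * 3 ^ n3) = 2 ^ n2 * (N₁ * 3 ^ n3) by ring, pow_mul y, hy, one_pow,
    show 2 ^ n2 * (N₁ * 3 ^ n3) = 3 ^ n3 * (2 ^ n2 * N₁) by ring, pow_mul z, hz, one_pow, one_mul]

theorem Hyp.rel
    (hS : ∑ x ∈ range N, χ (x : ZMod N) * Polynomial.aeval ((x : k) / (N : ℕ)) (FF m) = 0)
    (hm1 : 1 ≤ m) (hmp : m < p) {s σ τ : ℕ} (hs : ¬ 2 ∣ s) (hσ : s * 3 ^ B * σ ≡ 1 [MOD 2 ^ n2])
    (hτ : N₁ * 2 ^ A * τ ≡ 1 [MOD 3 ^ n3])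
    (h1 : N₁ * 2 ^ A < s * 3 ^ B)
    (h2 : (s + N₁ * (2 ^ n2 * 3 ^ n3) * (m - 1)) * 3 ^ B + N₁ * 2 ^ A < 2 ^ A * 3 ^ B) :
    om N₁ ψ₂ ψ₃ s σ τ * DD ψ₁ (N₁ * (2 ^ n2 * 3 ^ n3)) (2 ^ A * 3 ^ B) (s * 3 ^ B)
        (ψ₂ ((1 + 2 ^ A : ℕ) : ZMod (2 ^ (A + n2))) ^ (σ * 3 ^ B) *
          ψ₃ ((1 + 3 ^ B : ℕ) : ZMod (3 ^ (B + n3))) ^ (τ * 2 ^ A)) +
      DD ψ₁ (N₁ * (2 ^ n2 * 3 ^ n3)) (2 ^ A * 3 ^ B) (s * 3 ^ B)
        (ψ₂ ((1 + 2 ^ A : ℕ) : ZMod (2 ^ (A + n2))) ^ (σ * 3 ^ B) *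
          (ψ₃ ((1 + 3 ^ B : ℕ) : ZMod (3 ^ (B + n3))) ^ (τ * 2 ^ A))⁻¹) = 0 := by
  have hp := (Fact.out : p.Prime)
  have hA := D.hA
  have hB := D.hB
  have h8 := D.h8
  have h3 := D.h3
  set L := N₁ * (2 ^ n2 * 3 ^ n3) with hL
  set M := 2 ^ A * 3 ^ B with hM
  set x2 := ψ₂ ((1 + 2 ^ A : ℕ) : ZMod (2 ^ (A + n2))) with hx2
  set x3 := ψ₃ ((1 + 3 ^ B : ℕ) : ZMod (3 ^ (B + n3))) with hx3
  set z3 := x3 ^ (τ * 2 ^ A) with hz3
  have hz3p : z3 ^ 3 ^ n3 = 1 := D.z3_pow _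
  have hz30 : z3 ≠ 0 := by
    intro h
    rw [h, zero_pow (pow_ne_zero _ (by norm_num))] at hz3p
    exact zero_ne_one hz3p
  have hz3i : (z3⁻¹) ^ 3 ^ n3 = 1 := by rw [inv_pow, hz3p, inv_one]
  have hz2p : (x2 ^ (σ * 3 ^ B)) ^ 2 ^ n2 = 1 := D.z2_pow _
  have hσ2 : σ.Coprime 2 := cop_of_inv (dvd_pow_self 2 (by omega)) hσ
  have hz2n : x2 ^ (σ * 3 ^ B) ≠ 1 := D.x2_ne (Nat.Coprime.mul_left hσ2 (Nat.Coprime.pow_left _ (by norm_num)))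
  have h3N : ¬ 3 ∣ N₁ := by
    intro h
    have := Nat.dvd_gcd h (show 3 ∣ 6 by norm_num)
    rw [D.hN6] at this
    omega
  obtain ⟨c, hc⟩ : ∃ c, c + N₁ * 2 ^ A = s * 3 ^ B := ⟨s * 3 ^ B - N₁ * 2 ^ A, by omega⟩
  -- the relation for the classes
  have key : ∀ j, j < m → om N₁ ψ₂ ψ₃ s σ τ *
      ∑ t ∈ range L, ψ₁ ((s * 3 ^ B + N₁ * 2 ^ A + L * 3 ^ B * j + M * t : ℕ) : ZMod N₁) *
        (x2 ^ (σ * 3 ^ B) * z3) ^ t *
        Polynomial.aeval (((s * 3 ^ B + N₁ * 2 ^ A + L * 3 ^ B * j + M * t : ℕ) : k) / (N : ℕ)) (FF m) +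
      ∑ t ∈ range L, ψ₁ ((c + L * 3 ^ B * j + M * t : ℕ) : ZMod N₁) * (x2 ^ (σ * 3 ^ B) * z3⁻¹) ^ t *
        Polynomial.aeval (((c + L * 3 ^ B * j + M * t : ℕ) : k) / (N : ℕ)) (FF m) = 0 := by
    intro j hj
    set sj := s + L * j with hsj
    set c₁ := s * 3 ^ B + N₁ * 2 ^ A + L * 3 ^ B * j with hc₁
    set c₂ := c + L * 3 ^ B * j with hc₂
    have e1 : c₁ = sj * 3 ^ B + N₁ * 2 ^ A := by rw [hc₁, hsj]; ring
    have e2 : c₂ + N₁ * 2 ^ A = sj * 3 ^ B := by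
      have : sj * 3 ^ B = s * 3 ^ B + L * 3 ^ B * j := by rw [hsj]; ring
      rw [this, ← hc, hc₂]
      ring
    have hsj2 : ¬ 2 ∣ sj := by
      have h5 : 2 ∣ L * j := by
        refine Dvd.dvd.mul_right ?_ j
        exact (((dvd_pow_self 2 (by omega)).mul_right _).mul_left _)
      intro h
      exact hs ((Nat.dvd_add_left h5).1 h)
    have hcop1 : c₁.Coprime 6 := by
      rw [e1]
      exact cop_add hsj2 h3N (by omega) (by omega)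
    have hcop2 : c₂.Coprime 6 := cop_sub hsj2 h3N (by omega) (by omega) (Or.inl e2)
    have hlt1 : c₁ < 2 ^ A * 3 ^ B := by
      refine lt_of_le_of_lt ?_ h2
      rw [e1]
      have h5 : sj ≤ s + L * (m - 1) := by
        have : L * j ≤ L * (m - 1) := Nat.mul_le_mul_left _ (by omega)
        omega
      have := Nat.mul_le_mul_right (3 ^ B) h5
      omega
    have hlt2 : c₂ < 2 ^ A * 3 ^ B := by omega
    have h := D.two_class hS hcop1 hcop2 hlt1 hlt2 (by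
      refine ⟨-(2 * N₁), ?_⟩
      have e3 : (c₂ : ℤ) + N₁ * 2 ^ A = sj * 3 ^ B := by exact_mod_cast e2
      have e4 : (c₁ : ℤ) = sj * 3 ^ B + N₁ * 2 ^ A := by exact_mod_cast e1
      push_cast
      linear_combination e3 - e4) (by
      refine ⟨2 * sj, ?_⟩
      have e3 : (c₂ : ℤ) + N₁ * 2 ^ A = sj * 3 ^ B := by exact_mod_cast e2
      have e4 : (c₁ : ℤ) = sj * 3 ^ B + N₁ * 2 ^ A := by exact_mod_cast e1
      push_cast
      linear_combination e3 + e4)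
    -- the inverses
    obtain ⟨y2, hy2⟩ := int_inv hσ
    obtain ⟨y3, hy3⟩ := int_inv hτ
    obtain ⟨A', hA'⟩ : ∃ A', A = n2 + A' := ⟨A - n2, by omega⟩
    obtain ⟨B', hB'⟩ : ∃ B', B = n3 + B' := ⟨B - n3, by omega⟩
    have e3 : (c₂ : ℤ) + N₁ * 2 ^ A = sj * 3 ^ B := by exact_mod_cast e2
    have e4 : (c₁ : ℤ) = sj * 3 ^ B + N₁ * 2 ^ A := by exact_mod_cast e1
    have e5 : (sj : ℤ) = s + N₁ * (2 ^ n2 * 3 ^ n3) * j := by rw [hsj, hL]; push_cast; ring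
    have e6 : (2 : ℤ) ^ A = 2 ^ n2 * 2 ^ A' := by rw [hA', pow_add]
    have e7 : (3 : ℤ) ^ B = 3 ^ n3 * 3 ^ B' := by rw [hB', pow_add]
    have e8 : ((3 ^ n3 - 1 : ℕ) : ℤ) = 3 ^ n3 - 1 := by
      rw [Nat.cast_sub (Nat.one_le_pow _ _ (by norm_num))]
      push_cast
      ring
    push_cast at hy2 hy3
    have i1 : c₁ * σ ≡ 1 [MOD 2 ^ n2] := by
      refine (Nat.modEq_iff_dvd.2 ?_).symm
      refine ⟨y2 + N₁ * 3 ^ n3 * j * 3 ^ B * σ + N₁ * 2 ^ A' * σ, ?_⟩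
      push_cast
      rw [e4, e5]
      linear_combination hy2 + (N₁ : ℤ) * σ * e6
    have i2 : c₁ * τ ≡ 1 [MOD 3 ^ n3] := by
      refine (Nat.modEq_iff_dvd.2 ?_).symm
      refine ⟨y3 + sj * 3 ^ B' * τ, ?_⟩
      push_cast
      rw [e4]
      linear_combination hy3 + (sj : ℤ) * τ * e7
    have i3 : c₂ * σ ≡ 1 [MOD 2 ^ n2] := by
      refine (Nat.modEq_iff_dvd.2 ?_).symm
      refine ⟨y2 + N₁ * 3 ^ n3 * j * 3 ^ B * σ - N₁ * 2 ^ A' * σ, ?_⟩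
      push_cast
      have e9 : (c₂ : ℤ) = sj * 3 ^ B - N₁ * 2 ^ A := by linear_combination e3
      rw [e9, e5]
      linear_combination hy2 - (N₁ : ℤ) * σ * e6
    have i4 : c₂ * (τ * (3 ^ n3 - 1)) ≡ 1 [MOD 3 ^ n3] := by
      refine (Nat.modEq_iff_dvd.2 ?_).symm
      refine ⟨c₂ * τ - sj * 3 ^ B' * τ + y3, ?_⟩
      rw [Nat.cast_mul, Nat.cast_mul, e8]
      push_cast
      linear_combination (-(τ : ℤ)) * e3 + hy3 - (sj : ℤ) * τ * e7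
    have T1 : T3 L M m N χ c₁ = (ψ₂ (c₁ : ZMod (2 ^ (A + n2))) * ψ₃ (c₁ : ZMod (3 ^ (B + n3)))) *
        ∑ t ∈ range L, ψ₁ ((c₁ + M * t : ℕ) : ZMod N₁) * (x2 ^ (σ * 3 ^ B) * z3) ^ t *
        Polynomial.aeval (((c₁ + M * t : ℕ) : k) / (N : ℕ)) (FF m) := by
      rw [T3, Finset.mul_sum]
      refine Finset.sum_congr rfl fun t _ => ?_
      rw [hM, D.shift i1 i2]
      ring
    have hz3' : x3 ^ (τ * (3 ^ n3 - 1) * 2 ^ A) = z3⁻¹ := by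
      apply eq_inv_of_mul_eq_one_left
      rw [hz3, ← pow_add]
      have : τ * (3 ^ n3 - 1) * 2 ^ A + τ * 2 ^ A = 3 ^ n3 * (τ * 2 ^ A) := by
        have h5 : 1 ≤ 3 ^ n3 := Nat.one_le_pow _ _ (by norm_num)
        obtain ⟨w, hw⟩ : ∃ w, 3 ^ n3 = w + 1 := ⟨3 ^ n3 - 1, by omega⟩
        rw [hw, Nat.add_sub_cancel]
        ring
      rw [this, pow_mul, D.x3_pow, one_pow]
    have T2 : T3 L M m N χ c₂ = (ψ₂ (c₂ : ZMod (2 ^ (A + n2))) * ψ₃ (c₂ : ZMod (3 ^ (B + n3)))) *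
        ∑ t ∈ range L, ψ₁ ((c₂ + M * t : ℕ) : ZMod N₁) * (x2 ^ (σ * 3 ^ B) * z3⁻¹) ^ t *
        Polynomial.aeval (((c₂ + M * t : ℕ) : k) / (N : ℕ)) (FF m) := by
      rw [T3, Finset.mul_sum]
      refine Finset.sum_congr rfl fun t _ => ?_
      rw [hM, D.shift i3 i4, ← hx2, ← hx3, hz3']
      ring
    have v2 : ψ₂ (c₁ : ZMod (2 ^ (A + n2))) = ψ₂ (c₂ : ZMod (2 ^ (A + n2))) * x2 ^ (σ * (2 * N₁)) := by
      rw [hx2, ← psi_shift ψ₂ hA i3]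
      congr 2
      have : c₁ = c₂ + 2 ^ A * (2 * N₁) := by
        rw [e1, ← e2]
        ring
      exact this
    have v3 : ψ₃ (c₁ : ZMod (3 ^ (B + n3))) = ψ₃ (-1) * ψ₃ (c₂ : ZMod (3 ^ (B + n3))) * x3 ^ (2 * s * τ) := by
      have h5 := psi_neg_shift ψ₃ hB i2 (c := c₂) (s := sj) (by rw [e1]; linarith)
      rw [h5, ← hx3]
      congr 1
      apply pow_congr_mod D.x3_pow
      have h6 : sj ≡ s [MOD 3 ^ n3] := by
        rw [hsj, hL]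
        have : s + N₁ * (2 ^ n2 * 3 ^ n3) * j = s + 3 ^ n3 * (N₁ * 2 ^ n2 * j) := by ring
        rw [this, Nat.ModEq, Nat.add_mul_mod_self_left]
      exact (h6.mul_left 2).mul_right τ
    have hu : ψ₂ (c₂ : ZMod (2 ^ (A + n2))) * ψ₃ (c₂ : ZMod (3 ^ (B + n3))) ≠ 0 := by
      obtain ⟨g2, g3⟩ := cop6_iff.1 hcop2
      exact mul_ne_zero (((ZMod.isUnit_iff_coprime c₂ (2 ^ (A + n2))).2 (g2.pow_right _)).map ψ₂).ne_zero
        (((ZMod.isUnit_iff_coprime c₂ (3 ^ (B + n3))).2 (g3.pow_right _)).map ψ₃).ne_zero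
    rw [T1, T2, v2, v3] at h
    rw [om, ← hx2, ← hx3]
    refine (mul_eq_zero.1 (Eq.trans ?_ h)).resolve_left hu
    ring
  have hfin := top_rel (p := p) (W := 3 ^ B) ψ₁ (FF m) (x2 ^ (σ * 3 ^ B) * z3) (x2 ^ (σ * 3 ^ B) * z3⁻¹)
    (om N₁ ψ₂ ψ₃ s σ τ) D.ML (dvd_mul_right _ _) (pow_L hz2p hz3p) (pow_L hz2p hz3i)
    (xi_ne hz2p hz2n hz3p D.hN6) (xi_ne hz2p hz2n hz3i D.hN6) (by
      have h5 := D.nat_ne D.pN
      rw [D.ML] at h5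
      push_cast at h5 ⊢
      exact left_ne_zero_of_mul h5) (by
      have h5 := D.nat_ne D.pN
      rw [D.ML] at h5
      push_cast at h5 ⊢
      exact right_ne_zero_of_mul h5) (by
      have h5 := D.nat_ne (D.pnot Nat.prime_three (by norm_num))
      push_cast at h5 ⊢
      exact pow_ne_zero _ h5) (FF_natDegree m) (by
      rw [FF_coeff m hm1]
      have h5 := D.nat_ne (r := m.factorial) (fun h => by
        have := (hp.dvd_factorial).1 h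
        omega)
      push_cast
      exact h5) hm1 hmp key
  rw [DD_congr ψ₁ (c := s * 3 ^ B + N₁ * 2 ^ A) (c' := s * 3 ^ B) (by
      rw [Nat.ModEq, Nat.add_mul_mod_self_left]),
    DD_congr ψ₁ (c := c) (c' := s * 3 ^ B) (by
      rw [← hc, Nat.ModEq, Nat.add_mul_mod_self_left])] at hfin
  exact hfin

end

end Pool.Agent.Q23.EF
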