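import Pool.Agent.Q23.EF.Main
import Pool.Agent.H178.GC.Red

/-!
# Levels `N₁ 2^a 3^b`: the values are units
-/

set_option autoImplicit false

namespace Pool.Agent.Q23.EF

open Finset Polynomial Pool.Agent.Y18.GX Pool.Agent.H178.GC

/-- the value without the Euler factor at `p`, as a sum over `0 ≤ a < N` -/
noncomputable def valSum (p m : ℕ) {N : ℕ} (ψ : DirichletCharacter ℂ N) : ℂ :=
  (1 - ψ (p : ZMod N) * (p : ℂ) ^ (m - 1)) * ((N : ℂ) ^ (m - 1) * ∑ a ∈ range N, ψ (a : ZMod N) *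
    (((Polynomial.bernoulli m).eval ((a : ℚ) / (N : ℕ)) : ℚ) : ℂ)) / m

/-- the value of a primitive character at `1 + N / ℓ` -/
lemma prim_val {N N₁ ℓ K : ℕ} (hN : N = N₁ * ℓ ^ K) (hℓ : ℓ.Prime) (hN₁ : N₁.Coprime ℓ) (hK : 2 ≤ K)
    (hN0 : N₁ ≠ 0) (ψ : DirichletCharacter ℂ N) (hc : ℓ ^ K ∣ ψ.conductor) :
    ψ ((1 + N₁ * ℓ ^ (K - 1) : ℕ) : ZMod N) ≠ 1 := by
  subst hN
  have hcop : N₁.Coprime (ℓ ^ K) := hN₁.pow_right K
  have hprim := snd_prim hcop hℓ hK hN0 ψ hc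
  rw [dec_nat hcop ψ]
  have h1 : ((1 + N₁ * ℓ ^ (K - 1) : ℕ) : ZMod N₁) = 1 := by
    push_cast
    simp
  have h2 : 1 + N₁ * ℓ ^ (K - 1) = 1 + ℓ ^ (K - 1) * N₁ := by ring
  rw [h1, map_one, one_mul, h2, psi_one_add (n := 1) (snd hcop ψ) (by omega)]
  have h3 := psi_M_pow (n := 1) (snd hcop ψ) (by omega)
  rw [pow_one] at h3
  exact ne_one_of_coprime hprim h3 hN₁

lemma exp_unit {N₁ e : ℕ} (hN0 : N₁ ≠ 0) (hexp : ∀ x : ℕ, x.Coprime N₁ → x ^ e ≡ 1 [MOD N₁])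
    (U : (ZMod N₁)ˣ) : (U : ZMod N₁) ^ e = 1 := by
  have : NeZero N₁ := ⟨hN0⟩
  have h1 := hexp (U : ZMod N₁).val (ZMod.val_coe_unit_coprime U)
  rw [← ZMod.natCast_eq_natCast_iff, Nat.cast_pow, ZMod.natCast_val, ZMod.cast_id', id_eq, Nat.cast_one] at h1
  exact h1

lemma frob_char {R : Type*} [CommRing R] {N₁ q : ℕ} (hN0 : N₁ ≠ 0) (hq : 1 ≤ q)
    (hexp : ∀ x : ℕ, x.Coprime N₁ → x ^ (q - 1) ≡ 1 [MOD N₁]) (ψ : MulChar (ZMod N₁) R) (a : ZMod N₁) :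
    ψ a ^ q = ψ a := by
  by_cases ha : IsUnit a
  · obtain ⟨U, rfl⟩ := ha
    have h1 : q = (q - 1) + 1 := by omega
    rw [h1, pow_succ, ← map_pow, exp_unit hN0 hexp U, map_one, one_mul]
  · rw [MulChar.map_nonunit _ ha, zero_pow (by omega)]

lemma q_mod8 {p g : ℕ} (hp : p.Prime) (h5 : 5 ≤ p) (hg : Even g) : p ^ g % 8 = 1 := by
  obtain ⟨g', hg'⟩ := hg
  have hpg : p ^ g = (p ^ 2) ^ g' := by
    rw [hg', ← pow_mul]
    congr 1
    ring
  have hpodd : Odd p := hp.odd_of_ne_two (by omega)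
  rw [hpg, Nat.pow_mod]
  have h1 : p ^ 2 % 8 = 1 := by
    have h2 : p % 8 = 1 ∨ p % 8 = 3 ∨ p % 8 = 5 ∨ p % 8 = 7 := by
      obtain ⟨w, hw⟩ := hpodd
      omega
    rw [Nat.pow_mod]
    rcases h2 with h2 | h2 | h2 | h2 <;> rw [h2]
  rw [h1, one_pow]
  rfl

lemma q_mod3 {p g : ℕ} (hp : p.Prime) (h5 : 5 ≤ p) (hg : Even g) : p ^ g % 3 = 1 := by
  obtain ⟨g', hg'⟩ := hg
  have hpg : p ^ g = (p ^ 2) ^ g' := by
    rw [hg', ← pow_mul]
    congr 1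
    ring
  rw [hpg, Nat.pow_mod]
  have h1 : p ^ 2 % 3 = 1 := by
    have h2 : p % 3 = 1 ∨ p % 3 = 2 := by
      have : ¬ 3 ∣ p := fun h => by
        have := (Nat.prime_dvd_prime_iff_eq Nat.prime_three hp).1 h
        omega
      omega
    rw [Nat.pow_mod]
    rcases h2 with h2 | h2 <;> rw [h2]
  rw [h1, one_pow]
  rfl

/-- one large prime power -/
theorem one_prime {p : ℕ} (hp : p.Prime) (h5 : 5 ≤ p) {ℓ : ℕ} (hℓ : ℓ = 2 ∨ ℓ = 3) {N₁ g n u : ℕ}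
    (hN₁ : N₁.Coprime ℓ) (hpN : ¬ p ∣ N₁) (hg : Even g)
    (hexp : ∀ x : ℕ, x.Coprime N₁ → x ^ (p ^ g - 1) ≡ 1 [MOD N₁])
    (hq : p ^ g - 1 = ℓ ^ n * u) (hu : u.Coprime ℓ) {K m N : ℕ} (hN : N = N₁ * ℓ ^ K) (hm1 : 1 ≤ m)
    (hmp : m ≤ p - 1) (hsize : m * N₁ * ℓ ^ (2 * n) ≤ ℓ ^ K) (ψ : DirichletCharacter ℂ N)
    (hc : ℓ ^ K ∣ ψ.conductor) (hpar : ψ (-1) = (-1) ^ m) : Pool.Agent.Y18.GX.IsUnitAt p (valSum p m ψ) := by
  subst hN
  have hℓp : ℓ.Prime := by rcases hℓ with rfl | rfl <;> norm_num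
  have hN0 : N₁ ≠ 0 := by
    rintro rfl
    exact hpN (dvd_zero _)
  have h8 := q_mod8 hp h5 hg
  have h3 := q_mod3 hp h5 hg
  have hA : Adm ℓ (p ^ g) := by
    rcases hℓ with rfl | rfl
    · exact Or.inr ⟨rfl, by omega⟩
    · exact Or.inl ⟨rfl, h3⟩
  have hn1 : 1 ≤ n ∧ 3 ≤ ℓ ^ n := by
    have hcop : ∀ j : ℕ, ℓ ^ j ∣ ℓ ^ n * u → j ≤ n := by
      intro j hj
      have h4 : ℓ ^ j ∣ ℓ ^ n := Nat.Coprime.dvd_of_dvd_mul_right (Nat.Coprime.pow_left j hu.symm) hj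
      exact (Nat.pow_dvd_pow_iff_le_right hℓp.one_lt).1 h4
    rcases hℓ with rfl | rfl
    · have h6 : 3 ≤ n := by
        apply hcop
        rw [← hq]
        omega
      refine ⟨by omega, ?_⟩
      calc 3 ≤ 2 ^ 3 := by norm_num
        _ ≤ 2 ^ n := Nat.pow_le_pow_right (by norm_num) h6
    · have h6 : 1 ≤ n := by
        apply hcop
        rw [← hq]
        omega
      refine ⟨h6, ?_⟩
      calc 3 = 3 ^ 1 := by norm_num
        _ ≤ 3 ^ n := Nat.pow_le_pow_right (by norm_num) h6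
  have hnK : 2 * n ≤ K := by
    have h6 : ℓ ^ (2 * n) ≤ ℓ ^ K := by
      calc ℓ ^ (2 * n) = 1 * ℓ ^ (2 * n) := (one_mul _).symm
        _ ≤ m * N₁ * ℓ ^ (2 * n) := Nat.mul_le_mul_right _ (Nat.mul_pos (by omega) (Nat.pos_of_ne_zero hN0))
        _ ≤ ℓ ^ K := hsize
    exact (Nat.pow_le_pow_iff_right hℓp.one_lt).1 h6
  have hcop : N₁.Coprime (ℓ ^ K) := hN₁.pow_right K
  have hpℓ : p ≠ ℓ := by rcases hℓ with rfl | rfl <;> omega
  have hprim := snd_prim hcop hℓp (by omega) hN0 ψ hc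
  have hψ₁ : ∀ a, fst hcop ψ a ^ p ^ g = fst hcop ψ a :=
    fun a => frob_char hN0 (Nat.one_le_pow _ _ hp.pos) hexp _ a
  have hψ1 : ψ ≠ 1 := by
    have : NeZero (N₁ * ℓ ^ K) := ⟨mul_ne_zero hN0 (pow_ne_zero _ hℓp.ne_zero)⟩
    intro h
    rw [h, DirichletCharacter.conductor_one] at hc
    have := Nat.dvd_one.1 hc
    exact (Nat.one_lt_pow (by omega) hℓp.one_lt).ne' this
  have hsum : ∑ a ∈ range (N₁ * ℓ ^ K), fst hcop ψ (a : ZMod N₁) * snd hcop ψ (a : ZMod (ℓ ^ K)) = 0 := by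
    rw [← sum_char (mul_ne_zero hN0 (pow_ne_zero _ hℓp.ne_zero)) ψ hψ1]
    exact Finset.sum_congr rfl fun a _ => (dec_nat hcop ψ a).symm
  have key := unit_main hp (fst hcop ψ) (snd hcop ψ) (by omega) hA hn1.1 hnK hn1.2 hq hu hψ₁ hprim hN₁ hpN hpℓ
    (by rw [← dec_neg, hpar]) hm1 (by omega) hsize hsum
  simp only [← dec_nat] at key
  exact key

/-- both prime powers large -/
theorem two_primes {p : ℕ} (hp : p.Prime) (h5 : 5 ≤ p) {N₁ g n2 n3 u A B m N : ℕ}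
    (hN₁ : N₁.Coprime 6) (hpN : ¬ p ∣ N₁) (hg : Even g)
    (hexp : ∀ x : ℕ, x.Coprime N₁ → x ^ (p ^ g - 1) ≡ 1 [MOD N₁])
    (hq : p ^ g - 1 = 2 ^ n2 * 3 ^ n3 * u) (hu : u.Coprime 6) (h8 : 3 ≤ n2) (h3 : 1 ≤ n3)
    (hA : n2 < A) (hB : n3 ≤ B) (hN : N = N₁ * (2 ^ (A + n2) * 3 ^ (B + n3)))
    (hm1 : 1 ≤ m) (hmp : m ≤ p - 1)
    (hsize : 2 * (N₁ * 2 ^ A) + N₁ * (2 ^ n2 * 3 ^ n3) * m * 3 ^ B < 2 ^ A * 3 ^ B)
    (ψ : DirichletCharacter ℂ N)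
    (hc : 2 ^ (A + n2) * 3 ^ (B + n3) ∣ ψ.conductor) (hpar : ψ (-1) = (-1) ^ m) :
    Pool.Agent.Y18.GX.IsUnitAt p (valSum p m ψ) := by
  have : Fact p.Prime := ⟨hp⟩
  have hN0 : N₁ ≠ 0 := by
    rintro rfl
    exact hpN (dvd_zero _)
  have hq1 : 1 ≤ p ^ g := Nat.one_le_pow _ _ hp.pos
  have hNN : N ≠ 0 := by
    rw [hN]
    exact mul_ne_zero hN0 (by positivity)
  obtain ⟨hN2, hN3⟩ := cop6_iff.1 hN₁
  have hp2 : ¬ p ∣ 2 := fun h => by
    have := (Nat.prime_dvd_prime_iff_eq hp Nat.prime_two).1 h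
    omega
  have hp3 : ¬ p ∣ 3 := fun h => by
    have := (Nat.prime_dvd_prime_iff_eq hp Nat.prime_three).1 h
    omega
  -- the values at `1 + N / 2` and `1 + N / 3`
  have hN' : N = N₁ * 3 ^ (B + n3) * 2 ^ (A + n2) := by rw [hN]; ring
  have hN'' : N = N₁ * 2 ^ (A + n2) * 3 ^ (B + n3) := by rw [hN]; ring
  have pr2 := prim_val hN' Nat.prime_two
    (Nat.Coprime.mul_left hN2 (Nat.Coprime.pow_left _ (by norm_num))) (by omega)
    (mul_ne_zero hN0 (by positivity)) ψ ((dvd_mul_right _ _).trans hc)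
  have pr3 := prim_val hN'' Nat.prime_three
    (Nat.Coprime.mul_left hN3 (Nat.Coprime.pow_left _ (by norm_num))) (by omega)
    (mul_ne_zero hN0 (by positivity)) ψ ((dvd_mul_left _ _).trans hc)
  have hψ1 : ψ ≠ 1 := by
    have : NeZero N := ⟨hNN⟩
    intro h
    rw [h, DirichletCharacter.conductor_one] at hc
    have h6 := Nat.dvd_one.1 ((dvd_mul_right _ _).trans hc)
    exact (Nat.one_lt_pow (by omega) (by norm_num : 1 < 2)).ne' h6
  -- `p` does not divide `φ (N)`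
  have hφ₁ : ¬ p ∣ N₁.totient := by
    intro h
    have : NeZero N₁ := ⟨hN0⟩
    rw [← ZMod.card_units_eq_totient, ← Nat.card_eq_fintype_card] at h
    obtain ⟨U, hU⟩ := exists_prime_orderOf_dvd_card' p h
    have h6 : U ^ (p ^ g - 1) = 1 := by
      apply Units.ext
      rw [Units.val_pow_eq_pow_val, exp_unit hN0 hexp U, Units.val_one]
    have h7 : p ∣ p ^ g - 1 := by
      have h14 := orderOf_dvd_of_pow_eq_one h6
      rwa [hU] at h14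
    rcases Nat.eq_zero_or_pos g with h9 | h9
    · rw [h9, pow_zero, Nat.sub_self] at hq
      have h10 : u = 0 := by
        rcases Nat.mul_eq_zero.1 hq.symm with h11 | h11
        · exfalso
          have : 0 < 2 ^ n2 * 3 ^ n3 := by positivity
          omega
        · exact h11
      rw [h10] at hu
      norm_num at hu
    · have h11 : p ∣ p ^ g := dvd_pow_self p (by omega)
      have h12 := (Nat.dvd_sub h11 h7)
      have h13 : p ^ g - (p ^ g - 1) = 1 := by omega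
      rw [h13] at h12
      exact hp.one_lt.ne' (Nat.dvd_one.1 h12)
  have hφ : ¬ p ∣ N.totient := by
    rw [hN, Nat.totient_mul ((hN2.pow_right _).mul_right (hN3.pow_right _)), Nat.totient_mul (cop23 _ _),
      Nat.totient_prime_pow Nat.prime_two (by omega), Nat.totient_prime_pow Nat.prime_three (by omega)]
    intro h
    rcases (hp.dvd_mul).1 h with h | h
    · exact hφ₁ h
    · rcases (hp.dvd_mul).1 h with h | h
      · rcases (hp.dvd_mul).1 h with h | h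
        · exact hp2 (hp.dvd_of_dvd_pow h)
        · exact hp2 (h.trans (by norm_num))
      · rcases (hp.dvd_mul).1 h with h | h
        · exact hp3 (hp.dvd_of_dvd_pow h)
        · exact hp2 h
  have hpNN : ¬ p ∣ N := by
    rw [hN]
    intro h
    rcases (hp.dvd_mul).1 h with h | h
    · exact hpN h
    · rcases (hp.dvd_mul).1 h with h | h
      · exact hp2 (hp.dvd_of_dvd_pow h)
      · exact hp3 (hp.dvd_of_dvd_pow h)
  subst hN
  have hcop : N₁.Coprime (2 ^ (A + n2) * 3 ^ (B + n3)) := (hN2.pow_right _).mul_right (hN3.pow_right _)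
  refine unit_gen' hp ψ hpNN hφ hpar hm1 (by omega) ?_ (sum_char hNN ψ hψ1)
  intro k _ _ χ hχ hχpar
  have hdec : ∀ x : ℕ, χ (x : ZMod (N₁ * (2 ^ (A + n2) * 3 ^ (B + n3)))) = c1 hcop χ (x : ZMod N₁) *
      (c1 (cop23 (A + n2) (B + n3)) (c2 hcop χ) (x : ZMod (2 ^ (A + n2))) *
        c2 (cop23 (A + n2) (B + n3)) (c2 hcop χ) (x : ZMod (3 ^ (B + n3)))) := by
    intro x
    rw [cc_nat hcop χ x, cc_nat (cop23 (A + n2) (B + n3)) (c2 hcop χ) x]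
  have D : Hyp p g n2 n3 u N₁ A B m (N₁ * (2 ^ (A + n2) * 3 ^ (B + n3))) χ (c1 hcop χ)
      (c1 (cop23 (A + n2) (B + n3)) (c2 hcop χ)) (c2 (cop23 (A + n2) (B + n3)) (c2 hcop χ)) := by
    refine ⟨h5, rfl, hq, hu, h8, h3, hA.le, hB, hdec, ?_, ?_, ?_, hN₁, hpN, hχpar⟩
    · exact fun a => frob_char hN0 hq1 hexp _ a
    · intro h
      apply hχ _ pr2
      rw [hdec]
      have e1 : ((1 + N₁ * 3 ^ (B + n3) * 2 ^ (A + n2 - 1) : ℕ) : ZMod N₁) = 1 := by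
        push_cast
        simp
      have e3 : ((1 + N₁ * 3 ^ (B + n3) * 2 ^ (A + n2 - 1) : ℕ) : ZMod (3 ^ (B + n3))) = 1 := by
        have := ZMod.natCast_self (3 ^ (B + n3))
        push_cast at this ⊢
        rw [this]
        ring
      have e2 : 1 + N₁ * 3 ^ (B + n3) * 2 ^ (A + n2 - 1) = 1 + 2 ^ (A + n2 - 1) * (N₁ * 3 ^ (B + n3)) := by ring
      rw [e1, e3, e2, psi_one_add (n := 1) (c1 (cop23 (A + n2) (B + n3)) (c2 hcop χ)) (by omega), h]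
      simp
    · intro h
      apply hχ _ pr3
      rw [hdec]
      have e1 : ((1 + N₁ * 2 ^ (A + n2) * 3 ^ (B + n3 - 1) : ℕ) : ZMod N₁) = 1 := by
        push_cast
        simp
      have e3 : ((1 + N₁ * 2 ^ (A + n2) * 3 ^ (B + n3 - 1) : ℕ) : ZMod (2 ^ (A + n2))) = 1 := by
        have := ZMod.natCast_self (2 ^ (A + n2))
        push_cast at this ⊢
        rw [this]
        ring
      have e2 : 1 + N₁ * 2 ^ (A + n2) * 3 ^ (B + n3 - 1) = 1 + 3 ^ (B + n3 - 1) * (N₁ * 2 ^ (A + n2)) := by ring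
      rw [e1, e3, e2, psi_one_add (n := 1) (c2 (cop23 (A + n2) (B + n3)) (c2 hcop χ)) (by omega), h]
      simp
  refine ⟨D.core2 hm1 (by omega) hsize, fun hm => ?_⟩
  exact D.euler2 hg hA

end Pool.Agent.Q23.EF
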